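import Mathlib

/-!
# Norms on Harish-Chandra modules: the Sobolev averaging map (definitions)
-/

namespace Pool.Agent.N535.SB

open scoped Topology ENNReal NNReal
open Filter

/-- The `K`-types `ι` of an admissible module `V`, a basis `X` of `V` consisting of bases of the
isotypic components (`τ b` is the `K`-type of `b`) and the eigenvalues `c` of the `K`-Laplacian. -/
structure KT where
  /-- the `K`-types -/
  ι : Type
  /-- the basis -/
  X : Type
  /-- the `K`-type of a basis vector -/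
  τ : X → ι
  /-- the isotypic components have finite dimension -/
  fib : ∀ i, {b | τ b = i}.Finite
  /-- the eigenvalues of the `K`-Laplacian -/
  c : ι → ℝ≥0

/-- The eigenvalue of `1 + Δ_K` at a basis vector. -/
noncomputable def KT.ev (D : KT) (b : D.X) : ℝ := 1 + (D.c (D.τ b) : ℝ)

theorem KT.one_le_ev (D : KT) (b : D.X) : 1 ≤ D.ev b := by
  have := (D.c (D.τ b)).coe_nonneg
  simp only [KT.ev]
  linarith

theorem KT.ev_pos (D : KT) (b : D.X) : 0 < D.ev b := lt_of_lt_of_le one_pos (D.one_le_ev b)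

/-- Families `x` of coordinates with `∑ (1 + c_b)^N |x_b| < ∞` for every `N`. -/
def KT.sub (D : KT) : Submodule ℂ (D.X → ℂ) where
  carrier := {x | ∀ N : ℕ, Summable (fun b => D.ev b ^ N * ‖x b‖)}
  add_mem' := by
    intro x y hx hy N
    refine Summable.of_nonneg_of_le (fun i => ?_) (fun i => ?_) ((hx N).add (hy N))
    · have := D.ev_pos i
      positivity
    · have := D.ev_pos i
      rw [← mul_add]
      exact mul_le_mul_of_nonneg_left (norm_add_le _ _) (by positivity)
  zero_mem' := by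
    intro N
    simp
  smul_mem' := by
    intro z x hx N
    have := (hx N).mul_left ‖z‖
    refine this.congr (fun i => ?_)
    simp only [Pi.smul_apply, norm_smul]
    ring

/-- The space `V^∞` of rapidly decreasing vectors. -/
def KT.E (D : KT) : Type := D.sub

noncomputable instance (D : KT) : AddCommGroup D.E := inferInstanceAs (AddCommGroup D.sub)

noncomputable instance (D : KT) : Module ℂ D.E := inferInstanceAs (Module ℂ D.sub)

/-- the coordinates -/
def co {D : KT} (x : D.E) (b : D.X) : ℂ := x.1 b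

/-- The seminorm `∑ (1 + c_b)^N |x_b|`. -/
noncomputable def nrm {D : KT} (N : ℕ) (x : D.E) : ℝ := ∑' b, D.ev b ^ N * ‖co x b‖

/-- `f` grows at most polynomially in the eigenvalues. -/
def PB (D : KT) (f : D.X → ℝ) : Prop :=
  ∃ N : ℕ, ∃ C : ℝ, ∀ b, |f b| ≤ C * D.ev b ^ N

theorem mulE_mem {D : KT} {f : D.X → ℝ} (hf : PB D f) (x : D.E) :
    (fun b => (f b : ℂ) * co x b) ∈ D.sub := by
  obtain ⟨N, C, h⟩ := hf
  intro M
  refine Summable.of_nonneg_of_le (fun i => ?_) (fun i => ?_) ((x.2 (M + N)).mul_left C)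
  · have := D.ev_pos i
    positivity
  · rw [norm_mul, Complex.norm_real, Real.norm_eq_abs, pow_add]
    have h0 := D.ev_pos i
    have h1 : 0 ≤ D.ev i ^ M * ‖x.1 i‖ := by positivity
    have h2 := mul_le_mul_of_nonneg_left (h i) h1
    have e : co x i = x.1 i := rfl
    rw [e]
    nlinarith

/-- The diagonal operator with the scalar `f b` at the basis vector `b`. -/
noncomputable def mulE {D : KT} (f : D.X → ℝ) (hf : PB D f) : D.E →ₗ[ℂ] D.E where
  toFun x := ⟨fun b => (f b : ℂ) * co x b, mulE_mem hf x⟩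
  map_add' x y := Subtype.ext (funext fun b => mul_add (f b : ℂ) (co x b) (co y b))
  map_smul' z x := Subtype.ext (funext fun b => mul_left_comm (f b : ℂ) z (co x b))

theorem pb_rpow {D : KT} (s : ℝ) : PB D (fun b => D.ev b ^ s) := by
  refine ⟨⌈|s|⌉₊, 1, fun i => ?_⟩
  have h1 := D.one_le_ev i
  rw [abs_of_nonneg (by positivity), one_mul, ← Real.rpow_natCast]
  exact Real.rpow_le_rpow_of_exponent_le h1 ((le_abs_self s).trans (Nat.le_ceil _))

/-- `D_s`: the scalar `(1 + c_b)^(s/2)` at the basis vector `b`. -/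
noncomputable def Dop {D : KT} (s : ℝ) : D.E →ₗ[ℂ] D.E :=
  mulE (fun b => D.ev b ^ (s / 2)) (pb_rpow (s / 2))

/-- `x` lies in the isotypic component of `i`. -/
def Iso {D : KT} (i : D.ι) (x : D.E) : Prop := ∀ b, D.τ b ≠ i → co x b = 0

/-- The smooth globalization `V^∞` of an admissible module `V` of a group `G`. The basis vectors
are bounded and the coordinates polynomially bounded for one fixed `G`-continuous norm, so
that `V^∞ = D.E` with the topology of the seminorms `nrm N`; the vectors with finitely many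
coordinates are the `K`-finite ones. -/
structure Glob (G : Type*) [Group G] [TopologicalSpace G] (K : Subgroup G) where
  /-- `K`-types and eigenvalues -/
  D : KT
  /-- the linear action of `G` on `V^∞` -/
  act : G → D.E → D.E
  act_one : ∀ x, act 1 x = x
  act_mul : ∀ g h x, act (g * h) x = act g (act h x)
  act_add : ∀ g x y, act g (x + y) = act g x + act g y
  act_smul : ∀ g (z : ℂ) x, act g (z • x) = z • act g x
  /-- the action of each `g` is continuous -/
  bdd : ∀ (g : G) (N : ℕ), ∃ N' : ℕ, ∃ C : ℝ, ∀ x : D.E, nrm N (act g x) ≤ C * nrm N' x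
  /-- the orbit maps are continuous -/
  cont : ∀ (x : D.E) (N : ℕ), Tendsto (fun g => nrm N (act g x - x)) (𝓝 1) (𝓝 0)
  /-- the isotypic components are stable under `K` -/
  stable : ∀ k ∈ K, ∀ (i : D.ι) (x : D.E), Iso i x → Iso i (act k x)
  /-- the index set of an orthonormal basis `Y_j` of the Lie algebra of `K` -/
  J : Type
  [fin : Fintype J]
  /-- the one-parameter subgroups `exp (t Y_j)` of `K` -/
  Y : J → ℝ → G
  Y_mem : ∀ j t, Y j t ∈ K
  Y_add : ∀ j s t, Y j (s + t) = Y j s * Y j t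
  Y_cont : ∀ j, Continuous (Y j)
  /-- the action of `Y_j` on `V^∞` -/
  B : J → D.E → D.E
  /-- `d/dt exp(t Y_j) x = exp(t Y_j) Y_j x` -/
  deriv : ∀ j x b t, HasDerivAt (fun u => co (act (Y j u) x) b) (co (act (Y j t) (B j x)) b) t
  /-- the `K`-Laplacian `Δ_K = -∑ Y_j²` is the scalar `c_i` on the component of `i` -/
  laplace : ∀ x b, -∑ j, co (B j (B j x)) b = (D.c (D.τ b) : ℝ) * co x b

attribute [instance] Glob.fin

/-- Weights: positive, locally bounded, submultiplicative. -/
structure IsWeight {G : Type*} [Group G] [TopologicalSpace G] (w : G → ℝ) : Prop where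
  pos : ∀ g, 0 < w g
  mul : ∀ g h, w (g * h) ≤ w g * w h
  bdd : ∀ g, ∃ C : ℝ, ∀ᶠ h in 𝓝 g, w h ≤ C

variable {G : Type*} [Group G] [TopologicalSpace G] {K : Subgroup G}

/-- `Norm(V, w)`: the norms `p` on `V^∞` which are continuous and satisfy
`p(g x) ≤ C w(g) p(x)`. -/
structure NormW (S : Glob G K) (w : G → ℝ) where
  /-- the norm -/
  p : S.D.E → ℝ
  add_le : ∀ x y, p (x + y) ≤ p x + p y
  smul : ∀ (z : ℂ) x, p (z • x) = ‖z‖ * p x
  pos : ∀ x, p x = 0 → x = 0
  smooth : ∃ N : ℕ, ∃ C : ℝ, ∀ x, p x ≤ C * nrm N x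
  growth : ∃ C : ℝ, ∀ g x, p (S.act g x) ≤ C * (w g * p x)

/-- the Sobolev norm `p_s(x) = p(D_s x)` -/
noncomputable def NormW.sob {S : Glob G K} {w : G → ℝ} (p : NormW S w) (s : ℝ≥0)
    (x : S.D.E) : ℝ := p.p (Dop (s : ℝ) x)

/-- `p ≲ q_s`. -/
def LeS {S : Glob G K} {w : G → ℝ} (p q : NormW S w) (s : ℝ≥0) : Prop :=
  ∃ C : ℝ, ∀ x, p.p x ≤ C * q.sob s x

/-- `d_→(p, q) = inf {s ≥ 0 : p ≲ q_s}`. -/
noncomputable def dTo {S : Glob G K} {w : G → ℝ} (p q : NormW S w) : ℝ≥0∞ :=
  ⨅ (s : ℝ≥0) (_ : LeS p q s), (s : ℝ≥0∞)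

/-- `d(p, q)`. -/
noncomputable def dSob {S : Glob G K} {w : G → ℝ} (p q : NormW S w) : ℝ≥0∞ :=
  max (dTo p q) (dTo q p)

/-- the cost `∑ w(g_i⁻¹) q(g_i x_i)` of a decomposition -/
noncomputable def cost (S : Glob G K) (w : G → ℝ) (q : S.D.E → ℝ)
    (l : List (G × S.D.E)) : ℝ := (l.map (fun z => w z.1⁻¹ * q (S.act z.1 z.2))).sum

/-- the sum `∑ x_i` of a decomposition -/
noncomputable def tot {S : Glob G K} (l : List (G × S.D.E)) : S.D.E := (l.map Prod.snd).sum

/-- `q^G (x) = inf ∑ w (g_i⁻¹) q (g_i x_i)` over the decompositions `x = ∑ x_i`, `g_i ∈ G`. -/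
noncomputable def avg (S : Glob G K) (w : G → ℝ) (q : S.D.E → ℝ) (x : S.D.E) : ℝ :=
  sInf {r | ∃ l, tot l = x ∧ r = cost S w q l}

/-- `K`-finite vectors -/
def KFin {D : KT} (x : D.E) : Prop := {b | co x b ≠ 0}.Finite

/-- The same infimum over the decompositions into `K`-finite vectors. -/
noncomputable def avgK (S : Glob G K) (w : G → ℝ) (q : S.D.E → ℝ) (x : S.D.E) : ℝ :=
  sInf {r | ∃ l, (∀ z ∈ l, KFin z.2) ∧ tot l = x ∧ r = cost S w q l}

end Pool.Agent.N535.SB
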