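import Pool.Agent.N535.SB.Def

/-!
# Truncations and the dissipativity of the `K`-Laplacian
-/

namespace Pool.Agent.N535.SB

open scoped Topology ENNReal NNReal
open Filter

section basic

variable {D : KT}

theorem rapid_ext {x y : D.E} (h : ∀ b, co x b = co y b) : x = y :=
  Subtype.ext (funext h)

theorem co_add (x y : D.E) (b : D.X) : co (x + y) b = co x b + co y b := rfl

theorem co_sub (x y : D.E) (b : D.X) : co (x - y) b = co x b - co y b := rfl

theorem co_smul (z : ℂ) (x : D.E) (b : D.X) : co (z • x) b = z * co x b := rfl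

theorem co_zero (b : D.X) : co (0 : D.E) b = 0 := rfl

/-- coordinates as additive maps -/
def coHom (b : D.X) : D.E →+ ℂ where
  toFun x := co x b
  map_zero' := rfl
  map_add' _ _ := rfl

theorem co_sum {α : Type*} (s : Finset α) (f : α → D.E) (b : D.X) :
    co (∑ a ∈ s, f a) b = ∑ a ∈ s, co (f a) b := map_sum (coHom b) f s

@[simp] theorem mulE_apply (f : D.X → ℝ) (hf : PB D f) (x : D.E) (b : D.X) :
    co (mulE f hf x) b = (f b : ℂ) * co x b := rfl

theorem pb_of_bdd {f : D.X → ℝ} (C : ℝ) (h : ∀ b, |f b| ≤ C) : PB D f :=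
  ⟨0, C, fun b => by simpa using h b⟩

/-- The vector with only one coordinate. -/
noncomputable def single (b : D.X) (z : ℂ) : D.E := by
  classical
  exact ⟨Pi.single b z, fun N => summable_of_ne_finset_zero (s := {b}) (fun j hj => by
    have : j ≠ b := by simpa using hj
    simp [Pi.single_eq_of_ne this])⟩

open Classical in
/-- truncation -/
noncomputable def trunc (F : Finset D.X) : D.E →ₗ[ℂ] D.E :=
  mulE (fun b => if b ∈ F then 1 else 0) (pb_of_bdd 1 (fun b => by split_ifs <;> simp))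

theorem trunc_apply_of_mem {F : Finset D.X} (x : D.E) {b : D.X} (h : b ∈ F) :
    co (trunc F x) b = co x b := by
  simp [trunc, h]

theorem trunc_apply_of_notMem {F : Finset D.X} (x : D.E) {b : D.X} (h : b ∉ F) :
    co (trunc F x) b = 0 := by
  simp [trunc, h]

theorem single_apply_same (b : D.X) (z : ℂ) : co (single b z) b = z := by
  classical
  simp [single, co]

theorem single_apply_ne {b a : D.X} (h : a ≠ b) (z : ℂ) : co (single b z) a = 0 := by
  classical
  simp [single, co, Pi.single_eq_of_ne h]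

theorem sum_single_apply_of_mem (F : Finset D.X) (v : D.X → ℂ) {b : D.X} (h : b ∈ F) :
    co (∑ a ∈ F, single a (v a)) b = v b := by
  rw [co_sum, Finset.sum_eq_single b, single_apply_same]
  · intro j _ hj
    exact single_apply_ne (Ne.symm hj) _
  · intro h'
    exact absurd h h'

theorem sum_single_apply_of_notMem (F : Finset D.X) (v : D.X → ℂ) {b : D.X} (h : b ∉ F) :
    co (∑ a ∈ F, single a (v a)) b = 0 := by
  rw [co_sum]
  refine Finset.sum_eq_zero (fun j hj => ?_)
  exact single_apply_ne (fun h' => h (by rw [h']; exact hj)) _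

theorem trunc_eq_sum (F : Finset D.X) (x : D.E) :
    trunc F x = ∑ b ∈ F, single b (co x b) := by
  refine rapid_ext (fun i => ?_)
  by_cases h : i ∈ F
  · rw [trunc_apply_of_mem x h, sum_single_apply_of_mem F _ h]
  · rw [trunc_apply_of_notMem x h, sum_single_apply_of_notMem F _ h]

theorem single_smul (b : D.X) (z v : ℂ) : single b (z * v) = z • single b v := by
  refine rapid_ext (fun a => ?_)
  rw [co_smul]
  by_cases h : a = b
  · subst h
    rw [single_apply_same, single_apply_same]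
  · rw [single_apply_ne h, single_apply_ne h, mul_zero]

theorem nrm_nonneg (N : ℕ) (x : D.E) : 0 ≤ nrm N x :=
  tsum_nonneg (fun i => by
    have := D.ev_pos i
    positivity)

theorem tendsto_nrm_trunc (N : ℕ) (x : D.E) :
    Tendsto (fun F : Finset D.X => nrm N (x - trunc F x)) atTop (𝓝 0) := by
  have h := tendsto_tsum_compl_atTop_zero (fun i => D.ev i ^ N * ‖co x i‖)
  refine h.congr (fun F => ?_)
  have e : (∑' a : {i // i ∉ F}, D.ev a ^ N * ‖co x a‖)
      = ∑' i, Set.indicator {i | i ∉ F} (fun i => D.ev i ^ N * ‖co x i‖) i :=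
    tsum_subtype {i | i ∉ F} (fun i => D.ev i ^ N * ‖co x i‖)
  rw [e, nrm]
  refine tsum_congr (fun i => ?_)
  rw [co_sub]
  by_cases h : i ∈ F
  · rw [trunc_apply_of_mem x h]
    simp [h]
  · rw [trunc_apply_of_notMem x h]
    simp [h]

/-- continuity of a seminorm -/
def Ct (P : Seminorm ℂ D.E) : Prop := ∃ N : ℕ, ∃ C : ℝ, ∀ x, P x ≤ C * nrm N x

theorem Ct.tendsto_sub {P : Seminorm ℂ D.E} (h : Ct P) (x : D.E) :
    Tendsto (fun F : Finset D.X => P (x - trunc F x)) atTop (𝓝 0) := by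
  obtain ⟨N, C, h⟩ := h
  have h1 : Tendsto (fun F : Finset D.X => C * nrm N (x - trunc F x)) atTop (𝓝 (C * 0)) :=
    (tendsto_nrm_trunc N x).const_mul C
  rw [mul_zero] at h1
  exact squeeze_zero (fun F => apply_nonneg P _) (fun F => h _) h1

theorem Ct.tendsto {P : Seminorm ℂ D.E} (h : Ct P) (x : D.E) :
    Tendsto (fun F : Finset D.X => P (trunc F x)) atTop (𝓝 (P x)) := by
  rw [tendsto_iff_norm_sub_tendsto_zero]
  refine squeeze_zero (fun F => norm_nonneg _) (fun F => ?_) (h.tendsto_sub x)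
  rw [Real.norm_eq_abs, abs_sub_comm]
  exact abs_sub_map_le_sub P x (trunc F x)

end basic

theorem second_diff {f f' : ℝ → ℂ} {m : ℂ} (h1 : ∀ t, HasDerivAt f (f' t) t)
    (h2 : HasDerivAt f' m 0) :
    Tendsto (fun h : ℝ => ((h : ℂ)⁻¹ * (h : ℂ)⁻¹) * (f h + f (-h) - 2 * f 0)) (𝓝[≠] 0)
      (𝓝 m) := by
  rw [Metric.tendsto_nhdsWithin_nhds]
  intro ε hε
  have h3 := h2.isLittleO.def (show (0 : ℝ) < ε / 3 by positivity)
  obtain ⟨δ, hδ, h3⟩ := Metric.eventually_nhds_iff.1 h3
  refine ⟨δ, hδ, fun {h} hh hhδ => ?_⟩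
  have hh0 : h ≠ 0 := hh
  set g : ℝ → ℂ := fun s => f s + f (-s) - 2 * f 0 - (s : ℂ) ^ 2 * m with hg
  set g' : ℝ → ℂ := fun s => f' s - f' (-s) - 2 * (s : ℂ) * m with hg'
  have hder : ∀ s, HasDerivAt g (g' s) s := by
    intro s
    have e1 : HasDerivAt (fun s : ℝ => f (-s)) (-(f' (-s))) s := by
      have := (h1 (-s)).scomp s (hasDerivAt_neg s)
      simpa [Function.comp_def] using this
    have e2 : HasDerivAt (fun s : ℝ => (s : ℂ) ^ 2 * m) (2 * (s : ℂ) * m) s := by
      have := ((hasDerivAt_id s).ofReal_comp.pow 2).mul_const m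
      refine this.congr_deriv ?_
      simp
    have e3 := (((h1 s).add e1).sub_const (2 * f 0)).sub e2
    refine e3.congr_deriv ?_
    simp only [hg']
    ring
  have hb : ∀ s ∈ Metric.closedBall (0 : ℝ) |h|, ‖g' s‖ ≤ 2 * (ε / 3) * |h| := by
    intro s hs
    have hs' : |s| ≤ |h| := by simpa using hs
    have hhδ' : |h| < δ := by simpa [Real.dist_eq] using hhδ
    have a1 := h3 (y := s) (by
      rw [Real.dist_eq, sub_zero]
      exact hs'.trans_lt hhδ')
    have a2 := h3 (y := -s) (by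
      rw [Real.dist_eq, sub_zero, abs_neg]
      exact hs'.trans_lt hhδ')
    simp only [sub_zero, Real.norm_eq_abs, abs_neg, Complex.real_smul,
      Complex.ofReal_neg] at a1 a2
    have e : g' s = (f' s - f' 0 - (s : ℂ) * m) - (f' (-s) - f' 0 - -(s : ℂ) * m) := by
      simp only [hg']
      ring
    rw [e]
    refine (norm_sub_le _ _).trans ?_
    have : ε / 3 * |s| ≤ ε / 3 * |h| := by gcongr
    linarith
  have hmv := Convex.norm_image_sub_le_of_norm_hasDerivWithin_le (f := g) (f' := g')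
    (fun s _ => (hder s).hasDerivWithinAt) hb (convex_closedBall (0 : ℝ) |h|)
    (Metric.mem_closedBall_self (abs_nonneg h)) (show h ∈ Metric.closedBall (0 : ℝ) |h| by simp)
  have hg0 : g 0 = 0 := by
    simp only [hg]
    simp
    ring
  rw [hg0, sub_zero, sub_zero, Real.norm_eq_abs] at hmv
  have hhc : (h : ℂ) ≠ 0 := by exact_mod_cast hh0
  have e : ((h : ℂ)⁻¹ * (h : ℂ)⁻¹) * (f h + f (-h) - 2 * f 0) - m
      = ((h : ℂ)⁻¹ * (h : ℂ)⁻¹) * g h := by
    simp only [hg]
    field_simp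
  rw [dist_eq_norm, e, norm_mul, norm_mul, norm_inv, Complex.norm_real, Real.norm_eq_abs]
  have hpos : 0 < |h| := abs_pos.2 hh0
  calc |h|⁻¹ * |h|⁻¹ * ‖g h‖ ≤ |h|⁻¹ * |h|⁻¹ * (2 * (ε / 3) * |h| * |h|) := by gcongr
    _ = 2 * (ε / 3) := by field_simp
    _ < ε := by linarith

variable {G : Type*} [Group G] [TopologicalSpace G] {K : Subgroup G} (S : Glob G K)

/-- the action of `g` as a linear map -/
noncomputable def Glob.lin (g : G) : S.D.E →ₗ[ℂ] S.D.E where
  toFun := S.act g
  map_add' := S.act_add g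
  map_smul' := S.act_smul g

theorem Glob.lin_apply (g : G) (x : S.D.E) : S.lin g x = S.act g x := rfl

/-- invariance under `K` -/
def KInv (P : Seminorm ℂ S.D.E) : Prop := ∀ k ∈ K, ∀ x, P (S.act k x) ≤ P x

variable {S}

theorem diss0 {P : Seminorm ℂ S.D.E} (hK : KInv S P) (x : S.D.E) {κ : ℝ}
    (hκ : 0 ≤ κ) (h : ℝ) :
    P x ≤ P (x + (κ : ℂ) • ∑ j, ((2 : ℂ) • x - S.act (S.Y j h) x - S.act (S.Y j (-h)) x)) := by
  set n : ℝ := (Fintype.card S.J : ℝ)
  set z := x + (κ : ℂ) • ∑ j, ((2 : ℂ) • x - S.act (S.Y j h) x - S.act (S.Y j (-h)) x)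
  have e : ((1 + 2 * n * κ : ℝ) : ℂ) • x
      = z + (κ : ℂ) • ∑ j, (S.act (S.Y j h) x + S.act (S.Y j (-h)) x) := by
    have e1 : ∑ j, ((2 : ℂ) • x - S.act (S.Y j h) x - S.act (S.Y j (-h)) x)
        = ((2 * n : ℝ) : ℂ) • x - ∑ j, (S.act (S.Y j h) x + S.act (S.Y j (-h)) x) := by
      have : ∀ j : S.J, ((2 : ℂ) • x - S.act (S.Y j h) x - S.act (S.Y j (-h)) x)
        = (2 : ℂ) • x - (S.act (S.Y j h) x + S.act (S.Y j (-h)) x) := fun j => by abel
      rw [Finset.sum_congr rfl (fun j _ => this j), Finset.sum_sub_distrib, Finset.sum_const,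
        Finset.card_univ, ← Nat.cast_smul_eq_nsmul ℂ, smul_smul]
      congr 2
      simp only [n]
      push_cast
      ring
    simp only [z]
    rw [e1, smul_sub, smul_smul]
    have : ((1 + 2 * n * κ : ℝ) : ℂ) • x = x + ((κ : ℂ) * ((2 * n : ℝ) : ℂ)) • x := by
      push_cast
      module
    rw [this]
    abel
  have h1 : P (((1 + 2 * n * κ : ℝ) : ℂ) • x) = (1 + 2 * n * κ) * P x := by
    rw [map_smul_eq_mul, Complex.norm_real, Real.norm_eq_abs, abs_of_nonneg (by positivity)]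
  have h2 : P (∑ j, (S.act (S.Y j h) x + S.act (S.Y j (-h)) x)) ≤ 2 * n * P x := by
    refine (Finset.le_sum_of_subadditive P (map_zero P).le (map_add_le_add P) _ _).trans ?_
    have : ∀ j ∈ (Finset.univ : Finset S.J),
        P (S.act (S.Y j h) x + S.act (S.Y j (-h)) x) ≤ 2 * P x := by
      intro j _
      have h1 := hK (S.Y j h) (S.Y_mem j h) x
      have h2 := hK (S.Y j (-h)) (S.Y_mem j (-h)) x
      have h3 := map_add_le_add P (S.act (S.Y j h) x) (S.act (S.Y j (-h)) x)
      linarith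
    refine (Finset.sum_le_sum this).trans (le_of_eq ?_)
    rw [Finset.sum_const, Finset.card_univ, nsmul_eq_mul]
    simp only [n]
    ring
  have h3 : P (z + (κ : ℂ) • ∑ j, (S.act (S.Y j h) x + S.act (S.Y j (-h)) x))
      ≤ P z + κ * (2 * n * P x) := by
    refine (map_add_le_add P _ _).trans ?_
    rw [map_smul_eq_mul, Complex.norm_real, Real.norm_eq_abs, abs_of_nonneg hκ]
    gcongr
  rw [← e, h1] at h3
  nlinarith

/-- the eigenvalue of `Δ_K` -/
noncomputable def cv (S : Glob G K) (b : S.D.X) : ℝ := (S.D.c (S.D.τ b) : ℝ)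

theorem pb_c : PB S.D (cv S) := by
  refine ⟨1, 1, fun i => ?_⟩
  have := (S.D.c (S.D.τ i)).coe_nonneg
  have e : S.D.ev i = 1 + cv S i := rfl
  rw [abs_of_nonneg (by exact this), e]
  linarith

theorem Y_zero (j : S.J) : S.Y j 0 = 1 := by
  have := S.Y_add j 0 0
  rw [add_zero] at this
  exact (left_eq_mul.1 this)

theorem diss1 {P : Seminorm ℂ S.D.E} (hK : KInv S P) (x : S.D.E) (F : Finset S.D.X) {u : ℝ}
    (hu : 0 ≤ u) :
    P (trunc F x) ≤ P (trunc F x + (u : ℂ) • mulE (cv S) pb_c (trunc F x)) := by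
  set y := trunc F x with hy
  set z := y + (u : ℂ) • mulE (cv S) pb_c y with hz
  let zh : ℝ → S.D.E := fun h => y + ((u * (h⁻¹ * h⁻¹) : ℝ) : ℂ) •
    ∑ j, ((2 : ℂ) • y - S.act (S.Y j h) y - S.act (S.Y j (-h)) y)
  have hfin : {b | ∃ a ∈ F, S.D.τ b = S.D.τ a}.Finite := by
    have h1 : (⋃ a ∈ F, {b | S.D.τ b = S.D.τ a}).Finite :=
      F.finite_toSet.biUnion (fun a _ => S.D.fib (S.D.τ a))
    refine h1.subset (fun b hb => ?_)
    obtain ⟨a, ha, hb⟩ := hb
    exact Set.mem_biUnion (show a ∈ (F : Set S.D.X) from ha) hb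
  set F' := hfin.toFinset with hF'
  have hsupp : ∀ (j : S.J) (t : ℝ) (b : S.D.X), b ∉ F' → co (S.act (S.Y j t) y) b = 0 := by
    intro j t b hb
    rw [hy, trunc_eq_sum, ← S.lin_apply, map_sum, co_sum]
    refine Finset.sum_eq_zero (fun a ha => ?_)
    rw [S.lin_apply]
    refine S.stable _ (S.Y_mem j t) (S.D.τ a) _ (fun b' hb' => ?_) b (fun h => ?_)
    · refine single_apply_ne (fun h => hb' ?_) _
      rw [h]
    · exact hb (hfin.mem_toFinset.2 ⟨a, ha, h⟩)
  have hyb : ∀ b, b ∉ F' → co y b = 0 := by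
    intro b hb
    refine trunc_apply_of_notMem x (fun h => hb (hfin.mem_toFinset.2 ⟨b, h, rfl⟩))
  -- the defect
  let Df : ℝ → S.D.X → ℂ := fun h b => ∑ j, (((h : ℂ)⁻¹ * (h : ℂ)⁻¹) *
    (co (S.act (S.Y j h) y) b + co (S.act (S.Y j (-h)) y) b - 2 * co (S.act (S.Y j 0) y) b)
    - co (S.B j (S.B j y)) b)
  have hDf : ∀ b, Tendsto (fun h : ℝ => Df h b) (𝓝[≠] 0) (𝓝 0) := by
    intro b
    have h1 : ∀ j ∈ (Finset.univ : Finset S.J), Tendsto (fun h : ℝ =>
        (((h : ℂ)⁻¹ * (h : ℂ)⁻¹) * (co (S.act (S.Y j h) y) b + co (S.act (S.Y j (-h)) y) b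
          - 2 * co (S.act (S.Y j 0) y) b) - co (S.B j (S.B j y)) b)) (𝓝[≠] 0)
        (𝓝 (co (S.B j (S.B j y)) b - co (S.B j (S.B j y)) b)) := by
      intro j _
      refine Tendsto.sub_const ?_ _
      have h2 := S.deriv j (S.B j y) b 0
      rw [Y_zero, S.act_one] at h2
      exact second_diff (f := fun t => co (S.act (S.Y j t) y) b)
        (fun t => S.deriv j y b t) h2
    have h2 := tendsto_finsetSum _ h1
    have e : (∑ j : S.J, (co (S.B j (S.B j y)) b - co (S.B j (S.B j y)) b)) = 0 := by simp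
    rw [e] at h2
    exact h2
  have key : ∀ h b, co (zh h - z) b = -((u : ℂ) * Df h b) ∨ b ∉ F' := by
    intro h b
    by_cases hb : b ∈ F'
    · left
      have e1 : co (zh h - z) b = ((u * (h⁻¹ * h⁻¹) : ℝ) : ℂ) *
          (∑ j, (2 * co y b - co (S.act (S.Y j h) y) b - co (S.act (S.Y j (-h)) y) b))
          - (u : ℂ) * ((cv S b : ℂ) * co y b) := by
        have : zh h - z = ((u * (h⁻¹ * h⁻¹) : ℝ) : ℂ) •
          (∑ j, ((2 : ℂ) • y - S.act (S.Y j h) y - S.act (S.Y j (-h)) y))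
          - (u : ℂ) • mulE (cv S) pb_c y := by
          simp only [zh, hz]
          abel
        rw [this, co_sub, co_smul, co_smul, co_sum, mulE_apply]
        rfl
      have e2 : (cv S b : ℂ) * co y b = -∑ j, co (S.B j (S.B j y)) b :=
        (S.laplace y b).symm
      have e3 : Df h b = ((h : ℂ)⁻¹ * (h : ℂ)⁻¹) * (∑ j, (co (S.act (S.Y j h) y) b
          + co (S.act (S.Y j (-h)) y) b - 2 * co y b)) - ∑ j, co (S.B j (S.B j y)) b := by
        simp only [Df]
        rw [Finset.sum_sub_distrib, ← Finset.mul_sum]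
        simp only [Y_zero, S.act_one]
      have e4 : ∑ j, (2 * co y b - co (S.act (S.Y j h) y) b - co (S.act (S.Y j (-h)) y) b)
          = -∑ j, (co (S.act (S.Y j h) y) b + co (S.act (S.Y j (-h)) y) b - 2 * co y b) := by
        rw [← Finset.sum_neg_distrib]
        exact Finset.sum_congr rfl (fun j _ => by ring)
      rw [e1, e2, e3, e4]
      push_cast
      ring
    · exact Or.inr hb
  have hzero : ∀ h b, b ∉ F' → co (zh h - z) b = 0 := by
    intro h b hb
    have e1 : co (zh h - z) b = ((u * (h⁻¹ * h⁻¹) : ℝ) : ℂ) *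
        (∑ j, (2 * co y b - co (S.act (S.Y j h) y) b - co (S.act (S.Y j (-h)) y) b))
        - (u : ℂ) * ((cv S b : ℂ) * co y b) := by
      have : zh h - z = ((u * (h⁻¹ * h⁻¹) : ℝ) : ℂ) •
        (∑ j, ((2 : ℂ) • y - S.act (S.Y j h) y - S.act (S.Y j (-h)) y))
        - (u : ℂ) • mulE (cv S) pb_c y := by
        simp only [zh, hz]
        abel
      rw [this, co_sub, co_smul, co_smul, co_sum, mulE_apply]
      rfl
    rw [e1, hyb b hb]
    simp only [hsupp _ _ b hb]
    simp
  have hbound : ∀ h : ℝ, P (zh h - z) ≤ ∑ b ∈ F', u * ‖Df h b‖ * P (single b 1) := by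
    intro h
    have e : zh h - z = ∑ b ∈ F', single b (co (zh h - z) b) := by
      rw [← trunc_eq_sum]
      refine rapid_ext (fun b => ?_)
      by_cases hb : b ∈ F'
      · rw [trunc_apply_of_mem _ hb]
      · rw [trunc_apply_of_notMem _ hb, hzero h b hb]
    rw [e]
    refine (Finset.le_sum_of_subadditive P (map_zero P).le (map_add_le_add P) _ _).trans ?_
    refine Finset.sum_le_sum (fun b hb => ?_)
    have h1 := (key h b).resolve_right (not_not.2 hb)
    have e2 : single b (co (zh h - z) b) = (co (zh h - z) b) • single b 1 := by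
      rw [← single_smul, mul_one]
    rw [e2, map_smul_eq_mul, h1, norm_neg, norm_mul, Complex.norm_real, Real.norm_eq_abs,
      abs_of_nonneg hu]
  have hlim : Tendsto (fun h : ℝ => P z + ∑ b ∈ F', u * ‖Df h b‖ * P (single b 1))
      (𝓝[≠] 0) (𝓝 (P z + ∑ b ∈ F', u * 0 * P (single b 1))) := by
    refine Tendsto.const_add _ (tendsto_finsetSum _ (fun b _ => ?_))
    refine Tendsto.mul_const _ (Tendsto.const_mul _ ?_)
    simpa using (hDf b).norm
  have hfin : P y ≤ P z + ∑ b ∈ F', u * 0 * P (single b 1) := by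
    refine ge_of_tendsto' hlim (fun h => ?_)
    have h1 : P y ≤ P (zh h) := diss0 hK y (mul_nonneg hu (mul_self_nonneg _)) h
    have h2 : P (zh h) ≤ P z + P (zh h - z) := by
      have := map_add_le_add P z (zh h - z)
      rwa [add_sub_cancel] at this
    linarith [hbound h]
  simpa using hfin

end Pool.Agent.N535.SB
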