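import Pool.Agent.N535.SB.Est1

/-!
# Fractional powers: integral formulas
-/

namespace Pool.Agent.N535.SB

open scoped Topology ENNReal NNReal
open Filter MeasureTheory Set

/-! ## The integrals -/

theorem intg (α ν : ℝ) (hα : 0 < α) (hν : α < ν) :
    IntegrableOn (fun s : ℝ => s ^ (α - 1) * (1 + s) ^ (-ν)) (Ioi 0) := by
  have hm : Measurable (fun s : ℝ => s ^ (α - 1) * (1 + s) ^ (-ν)) := by fun_prop
  rw [← Ioc_union_Ioi_eq_Ioi (zero_le_one' ℝ)]
  refine IntegrableOn.union ?_ ?_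
  · have h1 : IntegrableOn (fun s : ℝ => s ^ (α - 1)) (Ioc 0 1) :=
      (intervalIntegrable_iff_integrableOn_Ioc_of_le zero_le_one).1
        (intervalIntegral.intervalIntegrable_rpow' (by linarith))
    refine Integrable.mono' h1 hm.aestronglyMeasurable ?_
    refine (ae_restrict_iff' measurableSet_Ioc).2 (Eventually.of_forall (fun s hs => ?_))
    have h0 : 0 < s := hs.1
    rw [Real.norm_eq_abs, abs_of_nonneg (by positivity)]
    have : (1 + s) ^ (-ν) ≤ 1 :=
      Real.rpow_le_one_of_one_le_of_nonpos (by linarith) (by linarith)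
    calc s ^ (α - 1) * (1 + s) ^ (-ν) ≤ s ^ (α - 1) * 1 := by gcongr
      _ = s ^ (α - 1) := mul_one _
  · have h1 : IntegrableOn (fun s : ℝ => s ^ (α - 1 - ν)) (Ioi 1) :=
      integrableOn_Ioi_rpow_of_lt (by linarith) zero_lt_one
    refine Integrable.mono' h1 hm.aestronglyMeasurable ?_
    refine (ae_restrict_iff' measurableSet_Ioi).2 (Eventually.of_forall (fun s hs => ?_))
    have h0 : 0 < s := lt_trans zero_lt_one hs
    rw [Real.norm_eq_abs, abs_of_nonneg (by positivity), sub_eq_add_neg (α - 1) ν,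
      Real.rpow_add h0]
    have : (1 + s) ^ (-ν) ≤ s ^ (-ν) :=
      Real.rpow_le_rpow_of_nonpos h0 (by linarith) (by linarith)
    gcongr

/-- the constant `∫_0^∞ s^(α-1) (1+s)^(-ν) ds` -/
noncomputable def cc (α ν : ℝ) : ℝ := ∫ s in Ioi (0 : ℝ), s ^ (α - 1) * (1 + s) ^ (-ν)

theorem cc_pos (α ν : ℝ) (hα : 0 < α) (hν : α < ν) : 0 < cc α ν := by
  rw [cc, setIntegral_pos_iff_support_of_nonneg_ae]
  · have : Function.support (fun s : ℝ => s ^ (α - 1) * (1 + s) ^ (-ν)) ∩ Ioi 0 = Ioi 0 := by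
      refine inter_eq_right.2 (fun s hs => ?_)
      have h0 : 0 < s := hs
      have : 0 < s ^ (α - 1) * (1 + s) ^ (-ν) := by positivity
      exact this.ne'
    rw [this]
    simp
  · refine (ae_restrict_iff' measurableSet_Ioi).2 (Eventually.of_forall (fun s hs => ?_))
    have h0 : 0 < s := hs
    simp only [Pi.zero_apply]
    positivity
  · exact intg α ν hα hν

theorem scal (α ν : ℝ) {T : ℝ} (hT : 0 < T) {s : ℝ} (hs : 0 < s) :
    s ^ (α - 1) * (T + s) ^ (-ν)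
      = T ^ (α - 1 - ν) * ((T⁻¹ * s) ^ (α - 1) * (1 + T⁻¹ * s) ^ (-ν)) := by
  have h1 : T + s = T * (1 + T⁻¹ * s) := by
    field_simp
  have h2 : 0 < 1 + T⁻¹ * s := by positivity
  rw [h1, Real.mul_rpow hT.le h2.le, Real.mul_rpow (by positivity) hs.le, Real.inv_rpow hT.le,
    sub_eq_add_neg (α - 1) ν, Real.rpow_add hT]
  have h3 : 0 < T ^ (α - 1) := by positivity
  field_simp

theorem intgT (α ν : ℝ) (hα : 0 < α) (hν : α < ν) {T : ℝ} (hT : 0 < T) :
    IntegrableOn (fun s : ℝ => s ^ (α - 1) * (T + s) ^ (-ν)) (Ioi 0) := by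
  have h1 := (integrableOn_Ioi_comp_mul_left_iff
    (fun s : ℝ => s ^ (α - 1) * (1 + s) ^ (-ν)) 0 (inv_pos.2 hT)).2
    (by rw [mul_zero]; exact intg α ν hα hν)
  have h2 := h1.const_mul (T ^ (α - 1 - ν))
  refine (integrableOn_congr_fun (fun s hs => ?_) measurableSet_Ioi).1 h2
  exact (scal α ν hT hs).symm

theorem valT (α ν : ℝ) {T : ℝ} (hT : 0 < T) :
    ∫ s in Ioi (0 : ℝ), s ^ (α - 1) * (T + s) ^ (-ν) = T ^ (α - ν) * cc α ν := by
  have h1 : ∫ s in Ioi (0 : ℝ), s ^ (α - 1) * (T + s) ^ (-ν)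
      = ∫ s in Ioi (0 : ℝ), T ^ (α - 1 - ν) *
        ((T⁻¹ * s) ^ (α - 1) * (1 + T⁻¹ * s) ^ (-ν)) :=
    setIntegral_congr_fun measurableSet_Ioi (fun s hs => scal α ν hT hs)
  rw [h1, integral_const_mul,
    integral_comp_mul_left_Ioi (fun s : ℝ => s ^ (α - 1) * (1 + s) ^ (-ν)) 0 (inv_pos.2 hT),
    mul_zero, inv_inv, ← cc, smul_eq_mul, ← mul_assoc]
  congr 1
  have : α - ν = (α - 1 - ν) + 1 := by ring
  rw [this, Real.rpow_add hT, Real.rpow_one]

/-! ## Integral inequality for seminorms -/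

section intl

variable {D : KT}

theorem hb (P : Seminorm ℂ (D.E)) (v : D.E) :
    ∃ φ : D.E →+ ℝ, (∀ (r : ℝ) x, φ ((r : ℂ) • x) = r * φ x) ∧ (∀ x, φ x ≤ P x) ∧
      φ v = P v := by
  by_cases hv : v = 0
  · refine ⟨0, by simp, fun x => by simp, by simp [hv]⟩
  obtain ⟨g, hg1, hg2⟩ := exists_extension_of_le_sublinear
    (LinearPMap.mkSpanSingleton (K := ℝ) v (P v) hv) P
    (fun r hr x => by
      have : (r • x : D.E) = (r : ℂ) • x := rfl
      rw [this, map_smul_eq_mul, Complex.norm_real, Real.norm_eq_abs, abs_of_pos hr])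
    (map_add_le_add P)
    (fun x => by
      obtain ⟨x, hx⟩ := x
      obtain ⟨r, rfl⟩ := Submodule.mem_span_singleton.1 hx
      have e : (LinearPMap.mkSpanSingleton (K := ℝ) v (P v) hv) ⟨r • v, hx⟩ = r • P v :=
        LinearPMap.mkSpanSingleton'_apply _ _ _ r hx
      rw [e]
      have : (r • v : D.E) = (r : ℂ) • v := rfl
      simp only [this]
      rw [map_smul_eq_mul, Complex.norm_real, Real.norm_eq_abs, smul_eq_mul]
      exact mul_le_mul_of_nonneg_right (le_abs_self r) (apply_nonneg P v))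
  refine ⟨g.toAddMonoidHom, fun r x => ?_, hg2, ?_⟩
  · have : ((r : ℂ) • x : D.E) = r • x := rfl
    simp [this]
  · have h1 := hg1 ⟨v, Submodule.mem_span_singleton_self v⟩
    exact h1.trans (LinearPMap.mkSpanSingleton_apply (σ := RingHom.id ℝ) ℝ ℝ hv (P v))

theorem int_le (P : Seminorm ℂ (D.E)) (F : Finset D.X) (x : D.E)
    (f : D.X → ℝ → ℝ) (hf : ∀ i ∈ F, IntegrableOn (f i) (Ioi 0)) (B : ℝ → ℝ)
    (hB : IntegrableOn B (Ioi 0))
    (h : ∀ t, 0 < t → P (∑ i ∈ F, single i ((f i t : ℂ) * co x i)) ≤ B t) :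
    P (∑ i ∈ F, single i (((∫ t in Ioi (0 : ℝ), f i t : ℝ) : ℂ) * co x i))
      ≤ ∫ t in Ioi (0 : ℝ), B t := by
  obtain ⟨φ, h1, h2, h3⟩ := hb P
    (∑ i ∈ F, single i (((∫ t in Ioi (0 : ℝ), f i t : ℝ) : ℂ) * co x i))
  rw [← h3, map_sum]
  have e1 : ∀ (r : D.X → ℝ), ∑ i ∈ F, φ (single i ((r i : ℂ) * co x i))
      = ∑ i ∈ F, r i * φ (single i ((co x i))) := fun r =>
    Finset.sum_congr rfl (fun i _ => by rw [single_smul, h1])
  rw [e1 (fun i => ∫ t in Ioi (0 : ℝ), f i t)]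
  have e2 : ∑ i ∈ F, (∫ t in Ioi (0 : ℝ), f i t) * φ (single i ((co x i)))
      = ∫ t in Ioi (0 : ℝ), ∑ i ∈ F, f i t * φ (single i ((co x i))) := by
    rw [integral_finsetSum]
    · exact Finset.sum_congr rfl (fun i _ => (integral_mul_const _ _).symm)
    · intro i hi
      exact (hf i hi).mul_const _
  rw [e2]
  refine setIntegral_mono_on ?_ hB measurableSet_Ioi (fun t ht => ?_)
  · exact integrable_finsetSum _ (fun i hi => (hf i hi).mul_const _)
  · rw [← e1 (fun i => f i t), ← map_sum]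
    exact (h2 _).trans (h t ht)

end intl

end Pool.Agent.N535.SB
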