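import Pool.Agent.N535.SB.Est2

/-!
# Resolvents and fractional powers of `1 + Δ_K`
-/

namespace Pool.Agent.N535.SB

open scoped Topology ENNReal NNReal
open Filter MeasureTheory Set

variable {G : Type*} [Group G] [TopologicalSpace G] {K : Subgroup G} {S : Glob G K}

theorem pb_lin (t : ℝ) : PB S.D (fun i => t + S.D.ev i) := by
  refine ⟨1, |t| + 1, fun i => ?_⟩
  have h1 := S.D.one_le_ev i
  have h2 : |t + S.D.ev i| ≤ |t| + S.D.ev i := by
    refine (abs_add_le _ _).trans ?_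
    rw [abs_of_pos (S.D.ev_pos i)]
  have h3 : (S.D.ev i) ^ 1 = S.D.ev i := by
    simp
  rw [h3]
  have h4 : 0 ≤ |t| := abs_nonneg t
  nlinarith [mul_nonneg h4 (sub_nonneg.2 h1)]

/-- `y = f(Δ_K) x` -/
def Rel (f : S.D.X → ℝ) (x y : S.D.E) : Prop := ∀ i, co y i = (f i : ℂ) * co x i

theorem exists_rel {f : S.D.X → ℝ} (hf : PB S.D f) (x : S.D.E) : ∃ y, Rel f x y :=
  ⟨mulE f hf x, fun _ => rfl⟩

theorem Rel.trunc {f : S.D.X → ℝ} {x y : S.D.E} (h : Rel f x y) (F : Finset S.D.X) :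
    Rel f (trunc F x) (trunc F y) := by
  intro i
  by_cases hi : i ∈ F
  · rw [trunc_apply_of_mem x hi, trunc_apply_of_mem y hi, h i]
  · rw [trunc_apply_of_notMem x hi, trunc_apply_of_notMem y hi, mul_zero]

theorem Rel.comp {f g : S.D.X → ℝ} {x y z : S.D.E} (h1 : Rel f x y) (h2 : Rel g y z) :
    Rel (fun i => g i * f i) x z := by
  intro i
  rw [h2 i, h1 i]
  push_cast
  ring

theorem Rel.unique {f : S.D.X → ℝ} {x y z : S.D.E} (h1 : Rel f x y) (h2 : Rel f x z) :
    y = z := rapid_ext (fun i => by rw [h1 i, h2 i])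

theorem Rel.congr {f g : S.D.X → ℝ} {x y : S.D.E} (h : Rel f x y) (e : ∀ i, f i = g i) :
    Rel g x y := fun i => by rw [h i, e i]

theorem le_of_trunc {P : Seminorm ℂ (S.D.E)} (hP : Ct P) {x y : S.D.E}
    {C : ℝ} (h : ∀ F : Finset S.D.X, P (trunc F y) ≤ C * P (trunc F x)) : P y ≤ C * P x :=
  le_of_tendsto_of_tendsto' (hP.tendsto y) ((hP.tendsto x).const_mul C) h

theorem rbp {P : Seminorm ℂ (S.D.E)} (hK : KInv S P) (hP : Ct P) {t : ℝ}
    (ht : 0 ≤ t) {x y : S.D.E} (h : Rel (fun i => t + S.D.ev i) x y) :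
    (t + 1) * P x ≤ P y := by
  have h0 : 0 < t + 1 := by linarith
  have h1 : ∀ F : Finset S.D.X, P (trunc F x) ≤ (t + 1)⁻¹ * P (trunc F y) := by
    intro F
    refine (diss1 hK x F (inv_nonneg.2 h0.le)).trans (le_of_eq ?_)
    have e : trunc F x + (((t + 1)⁻¹ : ℝ) : ℂ) • mulE (cv S) pb_c (trunc F x)
        = (((t + 1)⁻¹ : ℝ) : ℂ) • trunc F y := by
      refine rapid_ext (fun i => ?_)
      rw [co_add, co_smul, co_smul, mulE_apply, h.trunc F i]
      have h1 : ((t : ℂ) + 1) ≠ 0 := by exact_mod_cast h0.ne'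
      have e3 : S.D.ev i = 1 + cv S i := rfl
      simp only [e3]
      push_cast
      field_simp
      ring
    rw [e, map_smul_eq_mul, Complex.norm_real, Real.norm_eq_abs,
      abs_of_pos (inv_pos.2 h0)]
  have h2 := le_of_tendsto_of_tendsto' (hP.tendsto x) ((hP.tendsto y).const_mul _) h1
  rw [← div_eq_inv_mul, le_div_iff₀ h0] at h2
  linarith

theorem resN {P : Seminorm ℂ (S.D.E)} (hK : KInv S P) (hP : Ct P) {t : ℝ}
    (ht : 0 ≤ t) (n : ℕ) : ∀ {x y : S.D.E}, Rel (fun i => ((t + S.D.ev i) ^ n)⁻¹) x y →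
    P y ≤ ((t + 1) ^ n)⁻¹ * P x := by
  induction n with
  | zero =>
    intro x y h
    have : y = x := rapid_ext (fun i => by rw [h i]; simp)
    simp [this]
  | succ n ih =>
    intro x y h
    have h0 : 0 < t + 1 := by linarith
    obtain ⟨z, hz⟩ := exists_rel (pb_lin (S := S) t) y
    have h1 : Rel (fun i => ((t + S.D.ev i) ^ n)⁻¹) x z := by
      refine (h.comp hz).congr (fun i => ?_)
      have : 0 < t + S.D.ev i := by
        have := S.D.ev_pos i
        linarith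
      field_simp
      ring
    have h2 := rbp hK hP ht hz
    have h3 := ih h1
    have h4 : P y ≤ (t + 1)⁻¹ * P z := by
      rw [← div_eq_inv_mul, le_div_iff₀ h0]
      linarith
    refine h4.trans ?_
    rw [pow_succ, mul_inv, mul_comm ((t + 1) ^ n)⁻¹, mul_assoc]
    gcongr

theorem pb_up {t : ℝ} (ht : 0 ≤ t) (n : ℕ) : PB S.D (fun i => (S.D.ev i / (t + S.D.ev i)) ^ n) := by
  refine pb_of_bdd 1 (fun i => ?_)
  have h1 := S.D.ev_pos i
  rw [abs_of_nonneg (by positivity)]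
  refine pow_le_one₀ (by positivity) ?_
  rw [div_le_one (by positivity)]
  linarith

theorem pb_down {t : ℝ} (ht : 0 ≤ t) (n : ℕ) : PB S.D (fun i => ((t + S.D.ev i) ^ n)⁻¹) := by
  refine pb_of_bdd 1 (fun i => ?_)
  have h1 := S.D.one_le_ev i
  rw [abs_of_nonneg (by positivity)]
  refine inv_le_one_of_one_le₀ (one_le_pow₀ (by linarith))

theorem up1 {P : Seminorm ℂ (S.D.E)} (hK : KInv S P) (hP : Ct P) {t : ℝ}
    (ht : 0 ≤ t) {x y : S.D.E} (h : Rel (fun i => S.D.ev i / (t + S.D.ev i)) x y) :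
    P y ≤ 2 * P x := by
  obtain ⟨z, hz⟩ := exists_rel (pb_down (S := S) ht 1) x
  have h1 := resN hK hP ht 1 hz
  have e : y = x - (t : ℂ) • z := by
    refine rapid_ext (fun i => ?_)
    rw [co_sub, co_smul, h i, hz i]
    have h2 : t + S.D.ev i ≠ 0 := by
      have := S.D.ev_pos i
      positivity
    have h3 : (t : ℂ) + (S.D.ev i : ℂ) ≠ 0 := by exact_mod_cast h2
    push_cast
    rw [pow_one]
    field_simp
    ring
  have h2 : P y ≤ P x + t * P z := by
    rw [e]
    refine (map_sub_le_add P _ _).trans ?_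
    rw [map_smul_eq_mul, Complex.norm_real, Real.norm_eq_abs, abs_of_nonneg ht]
  have h3 : t * P z ≤ P x := by
    have h0 : 0 < t + 1 := by linarith
    calc t * P z ≤ t * (((t + 1) ^ 1)⁻¹ * P x) := by gcongr
      _ = (t / (t + 1)) * P x := by
        rw [pow_one]
        ring
      _ ≤ 1 * P x := by
        gcongr
        rw [div_le_one h0]
        linarith
      _ = P x := one_mul _
  linarith

theorem upN {P : Seminorm ℂ (S.D.E)} (hK : KInv S P) (hP : Ct P) {t : ℝ}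
    (ht : 0 ≤ t) (n : ℕ) : ∀ {x y : S.D.E},
    Rel (fun i => (S.D.ev i / (t + S.D.ev i)) ^ n) x y → P y ≤ 2 ^ n * P x := by
  induction n with
  | zero =>
    intro x y h
    have : y = x := rapid_ext (fun i => by rw [h i]; simp)
    simp [this]
  | succ n ih =>
    intro x y h
    obtain ⟨z, hz⟩ := exists_rel (pb_up (S := S) ht n) x
    have h1 := ih hz
    obtain ⟨y', hy'⟩ := exists_rel (pb_up (S := S) ht 1) z
    have hy1 : Rel (fun i => S.D.ev i / (t + S.D.ev i)) z y' := hy'.congr (fun i => pow_one _)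
    have e : y = y' := h.unique ((hz.comp hy').congr (fun i => by ring))
    rw [e]
    have h2 := up1 hK hP ht hy1
    rw [pow_succ]
    linarith

/-- `A^N (s + A)^(-N) (t + A)^(-N)` -/
theorem both {P : Seminorm ℂ (S.D.E)} (hK : KInv S P) (hP : Ct P) {s t : ℝ}
    (hs : 0 ≤ s) (ht : 0 ≤ t) (n : ℕ) {x y : S.D.E}
    (h : Rel (fun i => S.D.ev i ^ n * ((s + S.D.ev i) ^ n)⁻¹ * ((t + S.D.ev i) ^ n)⁻¹) x y) :
    P y ≤ 4 ^ n * ((1 + t + s) ^ n)⁻¹ * P x := by
  have key : ∀ {s t : ℝ}, 0 ≤ s → 0 ≤ t →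
      Rel (fun i => S.D.ev i ^ n * ((s + S.D.ev i) ^ n)⁻¹ * ((t + S.D.ev i) ^ n)⁻¹) x y →
      P y ≤ 2 ^ n * ((t + 1) ^ n)⁻¹ * P x := by
    intro s t hs ht h
    obtain ⟨z, hz⟩ := exists_rel (pb_down (S := S) ht n) x
    obtain ⟨y', hy'⟩ := exists_rel (pb_up (S := S) hs n) z
    have e : y = y' := h.unique ((hz.comp hy').congr (fun i => by
      rw [div_pow, div_eq_mul_inv]))
    rw [e]
    have h1 := upN hK hP hs n hy'
    have h2 := resN hK hP ht n hz
    calc P y' ≤ 2 ^ n * P z := h1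
      _ ≤ 2 ^ n * (((t + 1) ^ n)⁻¹ * P x) := by gcongr
      _ = _ := by ring
  have h1 := key hs ht h
  have h2 := key ht hs (h.congr (fun i => by ring))
  have h3 : ((1 + t + s) ^ n)⁻¹ * 4 ^ n = 2 ^ n * (((1 + t + s) / 2) ^ n)⁻¹ := by
    rw [div_pow, inv_div, show (4 : ℝ) = 2 * 2 by norm_num, mul_pow]
    ring
  have h4 : 0 ≤ P x := apply_nonneg P x
  rcases le_total s t with hst | hst
  · refine h1.trans ?_
    rw [mul_comm (4 ^ n : ℝ), h3]
    gcongr
    linarith
  · refine h2.trans ?_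
    rw [mul_comm (4 ^ n : ℝ), h3]
    gcongr
    linarith

theorem inv_pow_eq {x : ℝ} (hx : 0 < x) (n : ℕ) : (x ^ n)⁻¹ = x ^ (-(n : ℝ)) := by
  rw [Real.rpow_neg hx.le, Real.rpow_natCast]

theorem sum_rel (F : Finset S.D.X) (x : S.D.E) (g : S.D.X → ℝ) :
    Rel g (trunc F x) (∑ i ∈ F, single i ((g i : ℂ) * co x i)) := by
  intro i
  by_cases hi : i ∈ F
  · rw [trunc_apply_of_mem x hi,
      sum_single_apply_of_mem F (fun i => (g i : ℂ) * co x i) hi]
  · rw [trunc_apply_of_notMem x hi,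
      sum_single_apply_of_notMem F (fun i => (g i : ℂ) * co x i) hi, mul_zero]

theorem Rel.smul_eq {f g : S.D.X → ℝ} {r : ℝ} {x y z : S.D.E} (h1 : Rel f x y)
    (h2 : Rel g x z) (e : ∀ i, f i = r * g i) : y = (r : ℂ) • z := by
  refine rapid_ext (fun i => ?_)
  rw [co_smul, h1 i, h2 i, e i]
  push_cast
  ring

/-- `A^α (t + A)^(-n)` is bounded by `(1 + t)^(α - n)`. -/
theorem frac {P : Seminorm ℂ (S.D.E)} (hK : KInv S P) (hP : Ct P) {t : ℝ}
    (ht : 0 ≤ t) (n : ℕ) {α : ℝ} (h0 : 0 ≤ α) (h1 : α ≤ n) {x y : S.D.E}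
    (h : Rel (fun i => S.D.ev i ^ α * ((t + S.D.ev i) ^ n)⁻¹) x y) :
    P y ≤ 4 ^ n * (1 + t) ^ (α - n) * P x := by
  have hT : 0 < 1 + t := by linarith
  have hPx : 0 ≤ P x := apply_nonneg P x
  rcases eq_or_lt_of_le h0 with h0' | h0'
  · subst h0'
    have h2 := resN hK hP ht n (h.congr (fun i => by rw [Real.rpow_zero, one_mul]))
    refine h2.trans ?_
    rw [zero_sub, ← inv_pow_eq hT, add_comm t 1]
    have : (1 : ℝ) ≤ 4 ^ n := one_le_pow₀ (by norm_num)
    have h3 : 0 ≤ ((1 + t) ^ n)⁻¹ * P x := by positivity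
    nlinarith
  rcases eq_or_lt_of_le h1 with h1' | h1'
  · subst h1'
    have h2 := upN hK hP ht n (h.congr (fun i => by
      rw [Real.rpow_natCast, div_pow, div_eq_mul_inv]))
    refine h2.trans ?_
    rw [sub_self, Real.rpow_zero, mul_one]
    gcongr
    norm_num
  have hc : 0 < cc α n := cc_pos α n h0' h1'
  refine le_of_trunc hP (fun F => ?_)
  have hPF : 0 ≤ P (trunc F x) := apply_nonneg P _
  have hint := int_le P F x
    (fun i s => (cc α n)⁻¹ * (S.D.ev i ^ n * ((t + S.D.ev i) ^ n)⁻¹) *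
      (s ^ (α - 1) * (S.D.ev i + s) ^ (-(n : ℝ))))
    (fun i _ => (intgT α n h0' h1' (S.D.ev_pos i)).const_mul _)
    (fun s => (cc α n)⁻¹ * 4 ^ n * P (trunc F x) *
      (s ^ (α - 1) * ((1 + t) + s) ^ (-(n : ℝ))))
    ((intgT α n h0' h1' hT).const_mul _)
    (fun s hs => by
      obtain ⟨W, hW⟩ := exists_rel (f := fun i => S.D.ev i ^ n * ((s + S.D.ev i) ^ n)⁻¹ *
        ((t + S.D.ev i) ^ n)⁻¹) (pb_of_bdd 1 (fun i => by
          have h1 := S.D.one_le_ev i
          rw [abs_of_nonneg (by positivity)]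
          have h2 : S.D.ev i ^ n * ((s + S.D.ev i) ^ n)⁻¹ ≤ 1 := by
            rw [← div_eq_mul_inv, ← div_pow]
            refine pow_le_one₀ (by positivity) ?_
            rw [div_le_one (by positivity)]
            linarith
          have h3 : ((t + S.D.ev i) ^ n)⁻¹ ≤ 1 :=
            inv_le_one_of_one_le₀ (one_le_pow₀ (by linarith))
          exact mul_le_one₀ h2 (by positivity) h3)) (trunc F x)
      have e := (sum_rel F x (fun i => (cc α n)⁻¹ * (S.D.ev i ^ n * ((t + S.D.ev i) ^ n)⁻¹) *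
        (s ^ (α - 1) * (S.D.ev i + s) ^ (-(n : ℝ))))).smul_eq (r := (cc α n)⁻¹ * s ^ (α - 1)) hW
        (fun i => by
          have h1 := S.D.ev_pos i
          rw [← inv_pow_eq (by positivity), add_comm (S.D.ev i) s]
          ring)
      rw [e, map_smul_eq_mul, Complex.norm_real, Real.norm_eq_abs,
        abs_of_nonneg (by positivity)]
      have hb := both hK hP hs.le ht n hW
      rw [inv_pow_eq (by positivity)] at hb
      have h5 : 0 ≤ (cc α n)⁻¹ * s ^ (α - 1) := by positivity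
      calc (cc α n)⁻¹ * s ^ (α - 1) * P W
          ≤ (cc α n)⁻¹ * s ^ (α - 1) * (4 ^ n * (1 + t + s) ^ (-(n : ℝ)) * P (trunc F x)) :=
            mul_le_mul_of_nonneg_left hb h5
        _ = _ := by ring)
  have e1 : ∀ i, (∫ s in Ioi (0 : ℝ), (cc α n)⁻¹ * (S.D.ev i ^ n * ((t + S.D.ev i) ^ n)⁻¹) *
      (s ^ (α - 1) * (S.D.ev i + s) ^ (-(n : ℝ)))) = S.D.ev i ^ α * ((t + S.D.ev i) ^ n)⁻¹ := by
    intro i
    have h1 := S.D.ev_pos i
    rw [integral_const_mul, valT α n h1, Real.rpow_sub h1, Real.rpow_natCast]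
    have : S.D.ev i ^ n ≠ 0 := by positivity
    field_simp
  have e2 : ∑ i ∈ F, single i (((∫ s in Ioi (0 : ℝ), (cc α n)⁻¹ *
      (S.D.ev i ^ n * ((t + S.D.ev i) ^ n)⁻¹) *
      (s ^ (α - 1) * (S.D.ev i + s) ^ (-(n : ℝ))) : ℝ) : ℂ) * co x i) = trunc F y := by
    rw [trunc_eq_sum]
    refine Finset.sum_congr rfl (fun i _ => ?_)
    rw [e1, h i]
  rw [e2, integral_const_mul, valT α n hT] at hint
  refine hint.trans (le_of_eq ?_)
  field_simp

/-- From bounds for the resolvent to bounds for negative powers. -/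
theorem negp {P : Seminorm ℂ (S.D.E)} (hK : KInv S P) (hP : Ct P) (m : ℕ)
    {β μ L : ℝ} (hβ0 : 0 ≤ β) (hβ : β < μ) (hμ : μ < m) {x y : S.D.E}
    (hy : Rel (fun i => S.D.ev i ^ (-μ)) x y)
    (h : ∀ t : ℝ, 0 ≤ t → ∀ z, Rel (fun i => ((t + S.D.ev i) ^ m)⁻¹) x z →
      P z ≤ L * (1 + t) ^ (-((m : ℝ) - β))) :
    P y ≤ (cc (m - μ) m)⁻¹ * cc (m - μ) (m - β) * L := by
  set α : ℝ := m - μ with hα
  have hα0 : 0 < α := by linarith
  have hα1 : α < m := by linarith
  have hα2 : α < m - β := by linarith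
  have hc : 0 < cc α m := cc_pos α m hα0 hα1
  have hF : ∀ F : Finset S.D.X, P (trunc F y) ≤ (cc α m)⁻¹ * cc α (m - β) * L
      + P (x - trunc F x) := by
    intro F
    have hint := int_le P F x
      (fun i s => (cc α m)⁻¹ * (s ^ (α - 1) * (S.D.ev i + s) ^ (-(m : ℝ))))
      (fun i _ => (intgT α m hα0 hα1 (S.D.ev_pos i)).const_mul _)
      (fun s => (cc α m)⁻¹ * L * (s ^ (α - 1) * (1 + s) ^ (-((m : ℝ) - β)))
        + (cc α m)⁻¹ * P (x - trunc F x) * (s ^ (α - 1) * (1 + s) ^ (-(m : ℝ))))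
      (((intg α (m - β) hα0 hα2).const_mul _).add ((intg α m hα0 hα1).const_mul _))
      (fun s hs => by
        obtain ⟨z, hz⟩ := exists_rel (pb_down (S := S) hs.le m) x
        have e := (sum_rel F x (fun i => (cc α m)⁻¹ *
          (s ^ (α - 1) * (S.D.ev i + s) ^ (-(m : ℝ))))).smul_eq (r := (cc α m)⁻¹ * s ^ (α - 1))
          (hz.trunc F) (fun i => by
            have h1 := S.D.ev_pos i
            rw [← inv_pow_eq (by positivity), add_comm (S.D.ev i) s]
            ring)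
        rw [e, map_smul_eq_mul, Complex.norm_real, Real.norm_eq_abs,
          abs_of_nonneg (by positivity)]
        have hz2 : Rel (fun i => ((s + S.D.ev i) ^ m)⁻¹) (x - trunc F x) (z - trunc F z) := by
          intro i
          rw [co_sub, co_sub, hz i, hz.trunc F i, mul_sub]
        have h1 := resN hK hP hs.le m hz2
        have h2 := h s hs.le z hz
        have h3 : P (trunc F z) ≤ P z + P (z - trunc F z) := by
          have := map_sub_le_add P z (z - trunc F z)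
          rwa [sub_sub_cancel] at this
        rw [add_comm s 1, inv_pow_eq (by positivity)] at h1
        have h5 : 0 ≤ (cc α m)⁻¹ * s ^ (α - 1) := by positivity
        calc (cc α m)⁻¹ * s ^ (α - 1) * P (trunc F z)
            ≤ (cc α m)⁻¹ * s ^ (α - 1) * (L * (1 + s) ^ (-((m : ℝ) - β))
              + (1 + s) ^ (-(m : ℝ)) * P (x - trunc F x)) :=
              mul_le_mul_of_nonneg_left (by linarith) h5
          _ = _ := by ring)
    have e1 : ∀ i, (∫ s in Ioi (0 : ℝ), (cc α m)⁻¹ *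
        (s ^ (α - 1) * (S.D.ev i + s) ^ (-(m : ℝ)))) = S.D.ev i ^ (-μ) := by
      intro i
      have h1 := S.D.ev_pos i
      rw [integral_const_mul, valT α m h1]
      have : α - m = -μ := by rw [hα]; ring
      rw [this]
      field_simp
    have e2 : ∑ i ∈ F, single i (((∫ s in Ioi (0 : ℝ), (cc α m)⁻¹ *
        (s ^ (α - 1) * (S.D.ev i + s) ^ (-(m : ℝ))) : ℝ) : ℂ) * co x i) = trunc F y := by
      rw [trunc_eq_sum]
      refine Finset.sum_congr rfl (fun i _ => ?_)
      rw [e1, hy i]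
    rw [e2, integral_add ((intg α (m - β) hα0 hα2).const_mul _)
      ((intg α m hα0 hα1).const_mul _), integral_const_mul, integral_const_mul, ← cc,
      ← cc] at hint
    refine hint.trans (le_of_eq ?_)
    field_simp
  have hlim := (hP.tendsto_sub x).const_add ((cc α m)⁻¹ * cc α (m - β) * L)
  rw [add_zero] at hlim
  exact le_of_tendsto_of_tendsto' (hP.tendsto y) hlim hF

end Pool.Agent.N535.SB
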