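import Pool.Agent.N535.SB.Main

/-!
# The Sobolev averaging map is Lipschitz
-/

namespace Pool.Agent.N535.SB

open scoped Topology ENNReal NNReal
open Filter MeasureTheory Set

variable {G : Type*} [Group G] [TopologicalSpace G] {K : Subgroup G} {S : Glob G K}
  {w : G → ℝ}

theorem Dop_eq (s : ℝ) (x : S.D.E) : Dop s x = apow S (s / 2) x := rfl

theorem negBdd (hK : IsCompact (K : Set G)) (hw : IsWeight w) (p : NormW S w) {e : ℝ}
    (he : 0 ≤ e) : ∃ C : ℝ, 0 ≤ C ∧ ∀ x, p.sn (apow S (-e) x) ≤ C * p.sn x := by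
  rcases eq_or_lt_of_le he with he' | he'
  · subst he'
    refine ⟨1, zero_le_one, fun x => ?_⟩
    rw [neg_zero, apow_zero, one_mul]
  obtain ⟨W, hW0, hW⟩ := weight_bdd hK hw
  obtain ⟨Cp, hCp0, hCp⟩ := p.growth' hw
  have hpK : ∀ k ∈ K, ∀ x, p.sn (S.act k x) ≤ (Cp * W) * p.sn x := by
    intro k hk x
    refine (hCp k x).trans ?_
    rw [mul_assoc]
    have := hW k hk
    have h1 : 0 ≤ p.sn x := apply_nonneg _ _
    gcongr
  obtain ⟨P, hPK, hPc, hpP, hPp⟩ := khull p.ct (mul_nonneg hCp0 hW0) hpK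
  obtain ⟨m, hm⟩ := exists_nat_gt e
  have hcc1 : 0 < cc (m - e) m := cc_pos _ _ (by linarith) (by linarith)
  refine ⟨(cc (m - e) m)⁻¹ * cc (m - e) (m - 0) * (Cp * W), ?_, fun x => ?_⟩
  · rw [sub_zero]
    positivity
  have h1 := negp hPK hPc m (β := 0) (μ := e) (L := P x) le_rfl he' hm (apow_rel (-e) x)
    (fun t ht z hz => by
      have h := resN hPK hPc ht m hz
      rw [add_comm t 1, inv_pow_eq (by linarith)] at h
      rw [sub_zero, mul_comm]
      exact h)
  have hc0 : 0 ≤ (cc (m - e) m)⁻¹ * cc (m - e) (m - 0) := by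
    rw [sub_zero]
    positivity
  calc p.sn (apow S (-e) x) ≤ P (apow S (-e) x) := hpP _
    _ ≤ (cc (m - e) m)⁻¹ * cc (m - e) (m - 0) * P x := h1
    _ ≤ (cc (m - e) m)⁻¹ * cc (m - e) (m - 0) * (Cp * W * p.sn x) :=
      mul_le_mul_of_nonneg_left (hPp x) hc0
    _ = _ := by ring

theorem cost_mono (hw : IsWeight w) {q q' : S.D.E → ℝ} {C : ℝ}
    (h : ∀ z, q z ≤ C * q' z) (l : List (G × S.D.E)) :
    cost S w q l ≤ C * cost S w q' l := by
  induction l with
  | nil => simp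
  | cons z l ih =>
    rw [cost_cons, cost_cons, mul_add]
    refine add_le_add ?_ ih
    have h1 := hw.pos z.1⁻¹
    calc w z.1⁻¹ * q (S.act z.1 z.2) ≤ w z.1⁻¹ * (C * q' (S.act z.1 z.2)) := by
          gcongr
          exact h _
      _ = _ := by ring

theorem le_mul_avg {q : S.D.E → ℝ} (hw : IsWeight w) (hq : ∀ x, 0 ≤ q x)
    {B C : ℝ} (hC : 0 ≤ C) {x : S.D.E}
    (h : ∀ l : List (G × S.D.E), tot l = x → B ≤ C * cost S w q l) :
    B ≤ (C + 1) * avg S w q x := by
  have hpos : 0 < C + 1 := by linarith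
  rw [← div_le_iff₀' hpos]
  refine le_avg (fun l hl => ?_)
  rw [div_le_iff₀' hpos]
  have := cost_nonneg hw hq l
  linarith [h l hl]

theorem avg_mono (hw : IsWeight w) {q q' : Seminorm ℂ (S.D.E)} {C : ℝ}
    (hC : 0 ≤ C) (h : ∀ z, q z ≤ C * q' z) (x : S.D.E) :
    avg S w q x ≤ (C + 1) * avg S w q' x :=
  le_mul_avg hw (fun x => apply_nonneg q' x) hC (fun l hl =>
    (avg_le hw (fun x => apply_nonneg q x) hl).trans (cost_mono hw h l))

/-- The Sobolev averaging map `(s, p) ↦ p_s^G`. -/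
noncomputable def Phi (hK : IsCompact (K : Set G)) (hw : IsWeight w) (s : ℝ≥0)
    (p : NormW S w) : NormW S w where
  p := avg S w (p.sob s)
  add_le := avg_add hw (fun x => apply_nonneg (p.sn.comp (Dop (s : ℝ))) x)
  smul := fun z x => map_smul_eq_mul (avgS hw (p.sn.comp (Dop (s : ℝ)))) z x
  pos := by
    intro x hx
    obtain ⟨C, hC, h⟩ := p.growth' hw
    obtain ⟨C', hC', h'⟩ := negBdd hK hw p (e := (s : ℝ) / 2) (by positivity)
    have h2 : ∀ z, p.sn z ≤ C' * (p.sn.comp (Dop (s : ℝ))) z := by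
      intro z
      have := h' (apow S ((s : ℝ) / 2) z)
      rwa [apow_apow, neg_add_cancel, apow_zero] at this
    have h3 := le_mul_avg (S := S) hw (fun x => apply_nonneg (p.sn.comp (Dop (s : ℝ))) x)
      (B := p.sn x) (C := C * C') (by positivity) (x := x)
      (fun l hl => by
        have := le_cost hw hC h h2 l
        rwa [hl] at this)
    have h4 : avg S w (p.sn.comp (Dop (s : ℝ))) x = 0 := hx
    rw [h4, mul_zero] at h3
    exact p.pos x (le_antisymm h3 (apply_nonneg p.sn _))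
  smooth := Ct.of_le (q := avgS hw (p.sn.comp (Dop (s : ℝ))))
    (Ct.comp p.ct (pb_rpow ((s : ℝ) / 2))) (hw.pos 1).le
    (fun x => avg_le_self hw (fun x => apply_nonneg (p.sn.comp (Dop (s : ℝ))) x) x)
  growth := ⟨1, fun g x => by
    rw [one_mul]
    exact avg_act hw (fun x => apply_nonneg (p.sn.comp (Dop (s : ℝ))) x) g x⟩

theorem Phi_apply (hK : IsCompact (K : Set G)) (hw : IsWeight w) (s : ℝ≥0)
    (p : NormW S w) (x : S.D.E) :
    (Phi hK hw s p).p x = avg S w (p.sob s) x := rfl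

theorem LeS.mono (hK : IsCompact (K : Set G)) (hw : IsWeight w) {p q : NormW S w}
    {s s' : ℝ≥0} (h : LeS p q s) (hs : s ≤ s') : LeS p q s' := by
  obtain ⟨C, h⟩ := h
  have hs' : (s : ℝ) ≤ s' := by exact_mod_cast hs
  obtain ⟨C', hC', h'⟩ := negBdd hK hw q (e := ((s' : ℝ) - s) / 2) (by linarith)
  refine ⟨|C| * C', fun x => (h x).trans ?_⟩
  have h1 := h' (Dop (s' : ℝ) x)
  rw [Dop_eq, apow_apow, show -(((s' : ℝ) - s) / 2) + (s' : ℝ) / 2 = (s : ℝ) / 2 by ring,
    ← Dop_eq, ← Dop_eq] at h1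
  have h2 : q.sob s x = q.sn (Dop (s : ℝ) x) := rfl
  have h3 : q.sob s' x = q.sn (Dop (s' : ℝ) x) := rfl
  rw [h2, h3]
  calc C * q.sn (Dop (s : ℝ) x) ≤ |C| * q.sn (Dop (s : ℝ) x) :=
        mul_le_mul_of_nonneg_right (le_abs_self C) (apply_nonneg _ _)
    _ ≤ |C| * (C' * q.sn (Dop (s' : ℝ) x)) := mul_le_mul_of_nonneg_left h1 (abs_nonneg C)
    _ = _ := by ring

theorem leS_Phi (hK : IsCompact (K : Set G)) (hw : IsWeight w) {p q : NormW S w}
    {δ s s' ν : ℝ≥0} (h : LeS p q δ) (hν : s + δ < s' + ν) :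
    LeS (Phi hK hw s p) (Phi hK hw s' q) ν := by
  obtain ⟨C, h⟩ := h
  have hν' : (s : ℝ) + δ < s' + ν := by exact_mod_cast hν
  -- p_s ≤ C q_(s+δ)
  have h1 : ∀ z, (p.sn.comp (Dop (s : ℝ))) z
      ≤ |C| * (q.sn.comp (apow S (((s : ℝ) + δ) / 2))) z := by
    intro z
    rw [Seminorm.comp_apply, Seminorm.comp_apply]
    refine (h _).trans ?_
    have e2 : ∀ y, q.sob δ y = q.sn (Dop (δ : ℝ) y) := fun y => rfl
    rw [e2, Dop_eq, Dop_eq, apow_apow, show (δ : ℝ) / 2 + (s : ℝ) / 2 = ((s : ℝ) + δ) / 2 by ring]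
    exact mul_le_mul_of_nonneg_right (le_abs_self C) (apply_nonneg _ _)
  have h2 := avg_mono hw (abs_nonneg C) h1
  rcases le_or_gt s' (s + δ) with hs | hs
  · have hs' : (s' : ℝ) ≤ s + δ := by exact_mod_cast hs
    obtain ⟨C', hC', h3⟩ := main_ineq hK hw q (a := ((s : ℝ) + δ) / 2) (b := (s' : ℝ) / 2)
      (μ := (ν : ℝ) / 2) (by positivity) (by linarith) (by linarith)
    refine ⟨(|C| + 1) * C', fun x => ?_⟩
    have h4 : Rel (fun i => S.D.ev i ^ (-((ν : ℝ) / 2))) (Dop (ν : ℝ) x) x := by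
      have := apow_rel (-((ν : ℝ) / 2)) (apow S ((ν : ℝ) / 2) x)
      rwa [apow_apow, neg_add_cancel, apow_zero] at this
    have h5 := h3 _ _ h4
    have h6 := h2 x
    change avg S w (p.sn.comp (Dop (s : ℝ))) x ≤ _
    refine h6.trans ?_
    rw [mul_assoc]
    exact mul_le_mul_of_nonneg_left h5 (by positivity)
  · refine LeS.mono hK hw (s := 0) ?_ (by simp)
    have hs' : (s : ℝ) + δ < s' := by exact_mod_cast hs
    obtain ⟨C', hC', h3⟩ := negBdd hK hw q (e := ((s' : ℝ) - (s + δ)) / 2) (by linarith)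
    have h4 : ∀ z, (q.sn.comp (apow S (((s : ℝ) + δ) / 2))) z
        ≤ C' * (q.sn.comp (Dop (s' : ℝ))) z := by
      intro z
      have := h3 (apow S ((s' : ℝ) / 2) z)
      rw [apow_apow, show -(((s' : ℝ) - (s + δ)) / 2) + (s' : ℝ) / 2
        = ((s : ℝ) + δ) / 2 by ring] at this
      exact this
    have h5 := avg_mono hw hC' h4
    refine ⟨(|C| + 1) * (C' + 1), fun x => ?_⟩
    have e : Dop (((0 : ℝ≥0) : ℝ)) x = x := by
      rw [Dop_eq]
      simp [apow_zero]
    rw [NormW.sob, e]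
    change avg S w (p.sn.comp (Dop (s : ℝ))) x ≤ _
    refine (h2 x).trans ?_
    rw [mul_assoc]
    exact mul_le_mul_of_nonneg_left (h5 x) (by positivity)

theorem dTo_Phi (hK : IsCompact (K : Set G)) (hw : IsWeight w) (p q : NormW S w)
    (s s' : ℝ≥0) : dTo (Phi hK hw s p) (Phi hK hw s' q) ≤ edist s s' + dTo p q := by
  refine ENNReal.le_of_forall_pos_le_add (fun ε hε hlt => ?_)
  have hfin : dTo p q < ⊤ := lt_of_le_of_lt le_add_self hlt
  have h1 : dTo p q < dTo p q + (ε / 2 : ℝ≥0) := by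
    refine ENNReal.lt_add_right hfin.ne ?_
    simpa using hε.ne'
  rw [dTo, iInf_lt_iff] at h1
  obtain ⟨δ, h1⟩ := h1
  rw [iInf_lt_iff] at h1
  obtain ⟨hδ, h1⟩ := h1
  have h2 : LeS (Phi hK hw s p) (Phi hK hw s' q) (δ + nndist s s' + ε / 2) := by
    refine leS_Phi hK hw hδ ?_
    rw [← NNReal.coe_lt_coe]
    push_cast
    have h3 : (s : ℝ) - s' ≤ Dist.dist s s' := by
      rw [NNReal.dist_eq]
      exact le_abs_self _
    have hε' : (0 : ℝ) < ε := by exact_mod_cast hε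
    linarith
  have h3 : dTo (Phi hK hw s p) (Phi hK hw s' q)
      ≤ ((δ + nndist s s' + ε / 2 : ℝ≥0) : ℝ≥0∞) :=
    iInf₂_le _ h2
  refine h3.trans ?_
  have h4 : ((δ : ℝ≥0) : ℝ≥0∞) ≤ dTo p q + (ε / 2 : ℝ≥0) := h1.le
  calc ((δ + nndist s s' + ε / 2 : ℝ≥0) : ℝ≥0∞)
      = (δ : ℝ≥0∞) + edist s s' + ((ε / 2 : ℝ≥0) : ℝ≥0∞) := by
        rw [edist_nndist]
        push_cast
        rfl
    _ ≤ (dTo p q + (ε / 2 : ℝ≥0)) + edist s s' + ((ε / 2 : ℝ≥0) : ℝ≥0∞) := by gcongr
    _ = edist s s' + dTo p q + (((ε / 2 : ℝ≥0) : ℝ≥0∞) + ((ε / 2 : ℝ≥0) : ℝ≥0∞)) := by ring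
    _ = edist s s' + dTo p q + ε := by
      rw [← ENNReal.coe_add, add_halves]

theorem dSob_Phi (hK : IsCompact (K : Set G)) (hw : IsWeight w) (p q : NormW S w)
    (s s' : ℝ≥0) : dSob (Phi hK hw s p) (Phi hK hw s' q) ≤ edist s s' + dSob p q := by
  refine max_le ?_ ?_
  · exact (dTo_Phi hK hw p q s s').trans (by gcongr; exact le_max_left _ _)
  · refine (dTo_Phi hK hw q p s' s).trans ?_
    rw [edist_comm]
    gcongr
    exact le_max_right _ _

theorem kfin_trunc (F : Finset S.D.X) (x : S.D.E) : KFin (trunc F x) := by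
  refine (Finset.finite_toSet F).subset (fun i hi => ?_)
  by_contra h
  exact hi (trunc_apply_of_notMem x h)

theorem avgK_eq (hw : IsWeight w) {q : Seminorm ℂ (S.D.E)} (hq : Ct q)
    {x : S.D.E} (hx : KFin x) : avgK S w q x = avg S w q x := by
  have hq0 : ∀ x, 0 ≤ q x := fun x => apply_nonneg q x
  refine le_antisymm ?_ ?_
  · refine le_avg (fun l hl => ?_)
    have key : ∀ l : List (G × S.D.E), Tendsto (fun F : Finset S.D.X =>
        cost S w q (l.map (fun z => (z.1, trunc F z.2)))) atTop (𝓝 (cost S w q l)) := by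
      intro l
      induction l with
      | nil => simp
      | cons z l ih =>
        simp only [List.map_cons, cost_cons]
        refine Tendsto.add (Tendsto.const_mul _ ?_) ih
        obtain ⟨N, C, hC⟩ := hq
        obtain ⟨N', C', hC'⟩ := S.bdd z.1 N
        have h1 : Ct (q.comp (S.lin z.1)) := by
          refine ⟨N', |C| * C', fun y => ?_⟩
          rw [Seminorm.comp_apply]
          refine (hC _).trans ?_
          calc C * nrm N (S.act z.1 y) ≤ |C| * nrm N (S.act z.1 y) :=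
                mul_le_mul_of_nonneg_right (le_abs_self C) (nrm_nonneg _ _)
            _ ≤ |C| * (C' * nrm N' y) := mul_le_mul_of_nonneg_left (hC' y) (abs_nonneg C)
            _ = _ := by ring
        exact h1.tendsto z.2
    have htot : ∀ (l : List (G × S.D.E)) (F : Finset S.D.X),
        tot (l.map (fun z => (z.1, trunc F z.2))) = trunc F (tot l) := by
      intro l F
      induction l with
      | nil => simp
      | cons z l ih => rw [List.map_cons, tot_cons, tot_cons, ih, map_add]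
    refine ge_of_tendsto (key l) ?_
    filter_upwards [eventually_ge_atTop hx.toFinset] with F hF
    have hxF : trunc F x = x := by
      refine rapid_ext (fun i => ?_)
      by_cases hi : i ∈ F
      · exact trunc_apply_of_mem x hi
      · rw [trunc_apply_of_notMem x hi]
        by_contra h
        exact hi (hF (hx.mem_toFinset.2 (Ne.symm h)))
    refine csInf_le ⟨0, ?_⟩ ⟨l.map (fun z => (z.1, trunc F z.2)), ?_, ?_, rfl⟩
    · rintro _ ⟨l, _, _, rfl⟩
      exact cost_nonneg hw hq0 l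
    · intro z hz
      obtain ⟨z', _, rfl⟩ := List.mem_map.1 hz
      exact kfin_trunc F _
    · have := htot l F
      rw [hl, hxF] at this
      exact this
  · refine le_csInf ⟨_, [(1, x)], ?_, by simp, rfl⟩ ?_
    · intro z hz
      rw [List.mem_singleton.1 hz]
      exact hx
    · rintro _ ⟨l, _, hl, rfl⟩
      exact avg_le hw hq0 hl

theorem Phi_apply_K (hK : IsCompact (K : Set G)) (hw : IsWeight w) (s : ℝ≥0)
    (p : NormW S w) {x : S.D.E} (hx : KFin x) :
    (Phi hK hw s p).p x = avgK S w (p.sob s) x := by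
  have h := avgK_eq hw (Ct.comp p.ct (pb_rpow ((s : ℝ) / 2))) hx
  rw [Phi_apply]
  exact h.symm

theorem cont_Phi (hK : IsCompact (K : Set G)) (hw : IsWeight w) (p : NormW S w)
    (s : ℝ≥0) {ε : ℝ≥0∞} (hε : 0 < ε) : ∃ δ : ℝ≥0∞, 0 < δ ∧ ∀ (s' : ℝ≥0) (q : NormW S w),
      edist s s' < δ → dSob p q < δ → dSob (Phi hK hw s p) (Phi hK hw s' q) < ε := by
  refine ⟨ε / 2, ENNReal.half_pos hε.ne', fun s' q h1 h2 => ?_⟩
  refine (dSob_Phi hK hw p q s s').trans_lt ?_
  calc edist s s' + dSob p q < ε / 2 + ε / 2 := ENNReal.add_lt_add h1 h2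
    _ = ε := ENNReal.add_halves ε

end Pool.Agent.N535.SB
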