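import Pool.Agent.N535.SB.Est3

/-!
# `K`-invariant hulls and the averaging `q ↦ q^G`
-/

namespace Pool.Agent.N535.SB

open scoped Topology ENNReal NNReal
open Filter MeasureTheory Set

variable {G : Type*} [Group G] [TopologicalSpace G] {K : Subgroup G} {S : Glob G K}

theorem khull {p : Seminorm ℂ (S.D.E)} (hp : Ct p) {M : ℝ} (hM : 0 ≤ M)
    (h : ∀ k ∈ K, ∀ x, p (S.act k x) ≤ M * p x) :
    ∃ P : Seminorm ℂ (S.D.E), KInv S P ∧ Ct P ∧ (∀ x, p x ≤ P x) ∧
      (∀ x, P x ≤ M * p x) := by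
  let f : K → Seminorm ℂ (S.D.E) := fun k => p.comp (S.lin k)
  have hb : ∀ x, BddAbove (range (fun k => f k x)) := by
    intro x
    refine ⟨M * p x, ?_⟩
    rintro _ ⟨k, rfl⟩
    exact h k.1 k.2 x
  have hf : BddAbove (range f) := Seminorm.bddAbove_range_iff.2 hb
  have hval : ∀ x, (⨆ k, f k) x = ⨆ k, f k x := fun x => Seminorm.iSup_apply hf
  have hup : ∀ x, (⨆ k, f k) x ≤ M * p x := by
    intro x
    rw [hval]
    exact ciSup_le (fun k => h k.1 k.2 x)
  refine ⟨⨆ k, f k, ?_, ?_, ?_, hup⟩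
  · intro k hk x
    rw [hval, hval]
    refine ciSup_le (fun k' => ?_)
    have e : f k' (S.act k x) = f (k' * ⟨k, hk⟩) x := by
      change p (S.act k' (S.act k x)) = p (S.act ((k' * ⟨k, hk⟩ : K) : G) x)
      rw [Subgroup.coe_mul, S.act_mul]
    rw [e]
    exact le_ciSup (hb x) _
  · obtain ⟨N, C, hC⟩ := hp
    refine ⟨N, M * C, fun x => (hup x).trans ?_⟩
    rw [mul_assoc]
    exact mul_le_mul_of_nonneg_left (hC x) hM
  · intro x
    rw [hval]
    have e : f 1 x = p x := by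
      change p (S.act ((1 : K) : G) x) = p x
      rw [Subgroup.coe_one, S.act_one]
    rw [← e]
    exact le_ciSup (hb x) 1

/-! ## Averaging -/

variable {w : G → ℝ} {q : S.D.E → ℝ}

@[simp] theorem cost_nil : cost S w q [] = 0 := by simp [cost]

@[simp] theorem cost_cons (z : G × S.D.E) (l : List (G × S.D.E)) :
    cost S w q (z :: l) = w z.1⁻¹ * q (S.act z.1 z.2) + cost S w q l := by simp [cost]

@[simp] theorem tot_nil : tot ([] : List (G × S.D.E)) = 0 := by simp [tot]

@[simp] theorem tot_cons (z : G × S.D.E) (l : List (G × S.D.E)) :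
    tot (z :: l) = z.2 + tot l := by simp [tot]

theorem cost_nonneg (hw : IsWeight w) (hq : ∀ x, 0 ≤ q x) (l : List (G × S.D.E)) :
    0 ≤ cost S w q l := by
  induction l with
  | nil => simp
  | cons z l ih =>
    rw [cost_cons]
    have := hw.pos z.1⁻¹
    have := hq (S.act z.1 z.2)
    positivity

theorem avg_le (hw : IsWeight w) (hq : ∀ x, 0 ≤ q x) {x : S.D.E}
    {l : List (G × S.D.E)} (hl : tot l = x) : avg S w q x ≤ cost S w q l := by
  refine csInf_le ⟨0, ?_⟩ ⟨l, hl, rfl⟩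
  rintro _ ⟨l, _, rfl⟩
  exact cost_nonneg hw hq l

theorem le_avg {x : S.D.E} {B : ℝ}
    (h : ∀ l : List (G × S.D.E), tot l = x → B ≤ cost S w q l) :
    B ≤ avg S w q x := by
  refine le_csInf ⟨_, [(1, x)], by simp, rfl⟩ ?_
  rintro _ ⟨l, hl, rfl⟩
  exact h l hl

theorem avg_nonneg (hw : IsWeight w) (hq : ∀ x, 0 ≤ q x) (x : S.D.E) :
    0 ≤ avg S w q x := le_avg (fun l _ => cost_nonneg hw hq l)

theorem avg_le_self (hw : IsWeight w) (hq : ∀ x, 0 ≤ q x) (x : S.D.E) :
    avg S w q x ≤ w 1 * q x := by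
  have := avg_le (S := S) hw hq (x := x) (l := [(1, x)]) (by simp)
  simpa [S.act_one] using this

theorem cost_append (l l' : List (G × S.D.E)) :
    cost S w q (l ++ l') = cost S w q l + cost S w q l' := by simp [cost]

theorem tot_append (l l' : List (G × S.D.E)) :
    tot (l ++ l') = tot l + tot l' := by simp [tot]

theorem avg_add (hw : IsWeight w) (hq : ∀ x, 0 ≤ q x) (x y : S.D.E) :
    avg S w q (x + y) ≤ avg S w q x + avg S w q y := by
  rw [← sub_le_iff_le_add]
  refine le_avg (fun l hl => ?_)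
  rw [sub_le_iff_le_add, ← sub_le_iff_le_add']
  refine le_avg (fun l' hl' => ?_)
  rw [sub_le_iff_le_add', ← cost_append]
  exact avg_le hw hq (by rw [tot_append, hl, hl'])

theorem avg_smul_le (hw : IsWeight w) (q : Seminorm ℂ (S.D.E)) (z : ℂ)
    (x : S.D.E) : avg S w q (z • x) ≤ ‖z‖ * avg S w q x := by
  have hq : ∀ x, 0 ≤ q x := fun x => apply_nonneg q x
  by_cases hz : z = 0
  · have := avg_le_self (S := S) hw hq (z • x)
    rw [hz] at this ⊢
    simpa using this
  · have hz' : 0 < ‖z‖ := norm_pos_iff.2 hz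
    rw [← div_le_iff₀' hz']
    refine le_avg (fun l hl => ?_)
    rw [div_le_iff₀' hz']
    have key : ∀ l : List (G × S.D.E),
        tot (l.map (fun y => (y.1, z • y.2))) = z • tot l ∧
        cost S w q (l.map (fun y => (y.1, z • y.2))) = ‖z‖ * cost S w q l := by
      intro l
      induction l with
      | nil => simp
      | cons y l ih =>
        constructor
        · rw [List.map_cons, tot_cons, tot_cons, ih.1, smul_add]
        · rw [List.map_cons, cost_cons, cost_cons, ih.2]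
          simp only [S.act_smul, map_smul_eq_mul]
          ring
    rw [← (key l).2]
    exact avg_le hw hq (by rw [(key l).1, hl])

theorem avg_act (hw : IsWeight w) (hq : ∀ x, 0 ≤ q x) (g : G) (x : S.D.E) :
    avg S w q (S.act g x) ≤ w g * avg S w q x := by
  have hg := hw.pos g
  rw [← div_le_iff₀' hg]
  refine le_avg (fun l hl => ?_)
  rw [div_le_iff₀' hg]
  have key : ∀ l : List (G × S.D.E),
      tot (l.map (fun y => (y.1 * g⁻¹, S.act g y.2))) = S.lin g (tot l) ∧
      cost S w q (l.map (fun y => (y.1 * g⁻¹, S.act g y.2))) ≤ w g * cost S w q l := by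
    intro l
    induction l with
    | nil => simp
    | cons y l ih =>
      constructor
      · rw [List.map_cons, tot_cons, tot_cons, ih.1, map_add, S.lin_apply]
        rfl
      · rw [List.map_cons, cost_cons, cost_cons]
        have e1 : S.act (y.1 * g⁻¹) (S.act g y.2) = S.act y.1 y.2 := by
          rw [← S.act_mul, inv_mul_cancel_right]
        have e2 : w (y.1 * g⁻¹)⁻¹ ≤ w g * w y.1⁻¹ := by
          rw [mul_inv_rev, inv_inv]
          exact hw.mul _ _
        simp only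
        rw [e1, mul_add]
        have := hq (S.act y.1 y.2)
        have h3 := mul_le_mul_of_nonneg_right e2 this
        linarith [ih.2]
  exact (avg_le hw hq (by rw [(key l).1, hl, S.lin_apply])).trans (key l).2

/-- The average as a seminorm. -/
noncomputable def avgS (hw : IsWeight w) (q : Seminorm ℂ (S.D.E)) :
    Seminorm ℂ (S.D.E) :=
  Seminorm.ofSMulLE (avg S w q)
    (le_antisymm (by
      have := avg_le_self (S := S) hw (fun x => apply_nonneg q x) 0
      simpa using this) (avg_nonneg hw (fun x => apply_nonneg q x) 0))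
    (avg_add hw (fun x => apply_nonneg q x))
    (avg_smul_le hw q)

theorem avgS_apply (hw : IsWeight w) (q : Seminorm ℂ (S.D.E)) (x : S.D.E) :
    avgS hw q x = avg S w q x := rfl

/-- a seminorm with growth `w` is bounded by the costs -/
theorem le_cost (hw : IsWeight w) {r : Seminorm ℂ (S.D.E)} {C C' : ℝ} (hC : 0 ≤ C)
    (hr : ∀ g x, r (S.act g x) ≤ C * (w g * r x)) (hq : ∀ x, r x ≤ C' * q x)
    (l : List (G × S.D.E)) : r (tot l) ≤ C * C' * cost S w q l := by
  induction l with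
  | nil => simp
  | cons z l ih =>
    rw [tot_cons, cost_cons]
    refine (map_add_le_add r _ _).trans ?_
    have e1 : z.2 = S.act z.1⁻¹ (S.act z.1 z.2) := by
      rw [← S.act_mul, inv_mul_cancel, S.act_one]
    have h1 : r z.2 ≤ C * (w z.1⁻¹ * r (S.act z.1 z.2)) := by
      have := hr z.1⁻¹ (S.act z.1 z.2)
      rwa [← e1] at this
    have h2 : C * (w z.1⁻¹ * r (S.act z.1 z.2)) ≤ C * (w z.1⁻¹ * (C' * q (S.act z.1 z.2))) := by
      have := hw.pos z.1⁻¹
      have := hq (S.act z.1 z.2)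
      gcongr
    nlinarith [ih]

theorem nrm_mulE_le {f : S.D.X → ℝ} (hf : PB S.D f) (N : ℕ) : ∃ N' : ℕ, ∃ C : ℝ,
    ∀ x : S.D.E, nrm N (mulE f hf x) ≤ C * nrm N' x := by
  obtain ⟨M, C, h⟩ := hf
  refine ⟨N + M, C, fun x => ?_⟩
  rw [nrm, nrm, ← tsum_mul_left]
  refine Summable.tsum_le_tsum (fun i => ?_) ((mulE f ⟨M, C, h⟩ x).2 N)
    ((x.2 (N + M)).mul_left C)
  rw [mulE_apply, norm_mul, Complex.norm_real, Real.norm_eq_abs, pow_add]
  have h0 := S.D.ev_pos i
  have h1 : 0 ≤ S.D.ev i ^ N * ‖co x i‖ := by positivity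
  nlinarith [mul_le_mul_of_nonneg_left (h i) h1]

theorem Ct.comp {p : Seminorm ℂ (S.D.E)} (hp : Ct p) {f : S.D.X → ℝ} (hf : PB S.D f) :
    Ct (p.comp (mulE f hf)) := by
  obtain ⟨N, C, h⟩ := hp
  obtain ⟨N', C', h'⟩ := nrm_mulE_le hf N
  refine ⟨N', |C| * C', fun x => ?_⟩
  rw [Seminorm.comp_apply]
  refine (h _).trans ?_
  calc C * nrm N (mulE f hf x) ≤ |C| * nrm N (mulE f hf x) :=
        mul_le_mul_of_nonneg_right (le_abs_self C) (nrm_nonneg _ _)
    _ ≤ |C| * (C' * nrm N' x) := mul_le_mul_of_nonneg_left (h' x) (abs_nonneg C)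
    _ = _ := by ring

theorem Ct.of_le {p q : Seminorm ℂ (S.D.E)} (hp : Ct p) {C : ℝ} (hC : 0 ≤ C)
    (h : ∀ x, q x ≤ C * p x) : Ct q := by
  obtain ⟨N, C', h'⟩ := hp
  refine ⟨N, C * C', fun x => (h x).trans ?_⟩
  rw [mul_assoc]
  exact mul_le_mul_of_nonneg_left (h' x) hC

/-- a weight is bounded on `K` -/
theorem weight_bdd (hK : IsCompact (K : Set G)) (hw : IsWeight w) :
    ∃ W : ℝ, 0 ≤ W ∧ ∀ k ∈ K, w k ≤ W := by
  have : ∃ W : ℝ, ∀ k ∈ (K : Set G), w k ≤ W := by
    refine hK.induction_on (p := fun s => ∃ W : ℝ, ∀ k ∈ s, w k ≤ W) ?_ ?_ ?_ ?_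
    · exact ⟨0, fun k hk => absurd hk (notMem_empty k)⟩
    · rintro s t hst ⟨W, hW⟩
      exact ⟨W, fun k hk => hW k (hst hk)⟩
    · rintro s t ⟨W, hW⟩ ⟨W', hW'⟩
      refine ⟨max W W', fun k hk => ?_⟩
      rcases hk with hk | hk
      · exact (hW k hk).trans (le_max_left _ _)
      · exact (hW' k hk).trans (le_max_right _ _)
    · intro k _
      obtain ⟨C, hC⟩ := hw.bdd k
      exact ⟨_, mem_nhdsWithin_of_mem_nhds hC, C, fun k hk => hk⟩
  obtain ⟨W, hW⟩ := this
  exact ⟨|W|, abs_nonneg W, fun k hk => (hW k hk).trans (le_abs_self W)⟩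

end Pool.Agent.N535.SB
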