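import Pool.Agent.N535.SB.Hull

/-!
# The main inequality
-/

namespace Pool.Agent.N535.SB

open scoped Topology ENNReal NNReal
open Filter MeasureTheory Set

variable {G : Type*} [Group G] [TopologicalSpace G] {K : Subgroup G} {S : Glob G K}

/-- `A^a`, `A = 1 + Δ_K` -/
noncomputable def apow (S : Glob G K) (a : ℝ) : S.D.E →ₗ[ℂ] S.D.E :=
  mulE (fun i => (S.D.ev i) ^ a) (pb_rpow a)

theorem apow_rel (a : ℝ) (x : S.D.E) : Rel (fun i => S.D.ev i ^ a) x (apow S a x) :=
  fun _ => rfl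

theorem apow_apow (a b : ℝ) (x : S.D.E) : apow S a (apow S b x) = apow S (a + b) x :=
  Rel.unique (((apow_rel b x).comp (apow_rel a _)).congr (fun i => by
    rw [Real.rpow_add (S.D.ev_pos i)])) (apow_rel (a + b) x)

theorem apow_zero (x : S.D.E) : apow S 0 x = x :=
  rapid_ext (fun i => by
    rw [apow_rel 0 x i]
    simp)

theorem pow_mul_rpow {T : ℝ} (hT : 0 < T) {n k : ℕ} (hk : k ≤ n) (e : ℝ) :
    T ^ (n - k) * T ^ ((k : ℝ) + e - n) = T ^ e := by
  rw [← Real.rpow_natCast T (n - k), ← Real.rpow_add hT, Nat.cast_sub hk]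
  congr 1
  ring

theorem part {P : Seminorm ℂ (S.D.E)} (hK : KInv S P) (hP : Ct P) (n : ℕ)
    {a b t : ℝ} (ht : 0 ≤ t) (s : Finset ℕ) (hs : s ⊆ Finset.range (n + 1))
    (hα : ∀ k ∈ s, 0 ≤ (k : ℝ) + a - b ∧ (k : ℝ) + a - b ≤ n) (y : S.D.E)
    (z : ℕ → S.D.E)
    (hz : ∀ k ∈ s, Rel (fun i => S.D.ev i ^ k * ((t + S.D.ev i) ^ n)⁻¹) y (z k)) :
    P (apow S a (∑ k ∈ s, ((t ^ (n - k) * (n.choose k : ℝ) : ℝ) : ℂ) • z k))
      ≤ 4 ^ n * 2 ^ n * (1 + t) ^ (a - b) * P (apow S b y) := by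
  have hT : 0 < 1 + t := by linarith
  have hPy : 0 ≤ P (apow S b y) := apply_nonneg P _
  rw [map_sum]
  refine (Finset.le_sum_of_subadditive P (map_zero P).le (map_add_le_add P) _ _).trans ?_
  have key : ∀ k ∈ s, P (apow S a (((t ^ (n - k) * (n.choose k : ℝ) : ℝ) : ℂ) • z k))
      ≤ (n.choose k : ℝ) * (4 ^ n * (1 + t) ^ (a - b) * P (apow S b y)) := by
    intro k hk
    have hkn : k ≤ n := by
      have := Finset.mem_range.1 (hs hk)
      omega
    have hrel : Rel (fun i => S.D.ev i ^ ((k : ℝ) + a - b) * ((t + S.D.ev i) ^ n)⁻¹)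
        (apow S b y) (apow S a (z k)) := by
      intro i
      have h1 := S.D.ev_pos i
      rw [apow_rel a (z k) i, hz k hk i, apow_rel b y i, ← mul_assoc, ← mul_assoc]
      congr 1
      rw [← Complex.ofReal_mul, ← Complex.ofReal_mul]
      congr 1
      have e1 : S.D.ev i ^ ((k : ℝ) + a - b) * S.D.ev i ^ b = S.D.ev i ^ k * S.D.ev i ^ a := by
        rw [← Real.rpow_add h1, ← Real.rpow_natCast, ← Real.rpow_add h1]
        congr 1
        ring
      calc S.D.ev i ^ a * (S.D.ev i ^ k * ((t + S.D.ev i) ^ n)⁻¹)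
          = (S.D.ev i ^ k * S.D.ev i ^ a) * ((t + S.D.ev i) ^ n)⁻¹ := by ring
        _ = (S.D.ev i ^ ((k : ℝ) + a - b) * S.D.ev i ^ b) * ((t + S.D.ev i) ^ n)⁻¹ := by rw [e1]
        _ = _ := by ring
    have h1 := frac hK hP ht n (hα k hk).1 (hα k hk).2 hrel
    rw [map_smul, map_smul_eq_mul, Complex.norm_real, Real.norm_eq_abs,
      abs_of_nonneg (by positivity)]
    have h2 : t ^ (n - k) ≤ (1 + t) ^ (n - k) := pow_le_pow_left₀ ht (by linarith) _
    calc t ^ (n - k) * (n.choose k : ℝ) * P (apow S a (z k))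
        ≤ (1 + t) ^ (n - k) * (n.choose k : ℝ) *
          (4 ^ n * (1 + t) ^ ((k : ℝ) + a - b - n) * P (apow S b y)) := by gcongr
      _ = (n.choose k : ℝ) * (4 ^ n * ((1 + t) ^ (n - k) * (1 + t) ^ ((k : ℝ) + (a - b) - n))
          * P (apow S b y)) := by
          rw [add_sub_assoc]
          ring
      _ = _ := by rw [pow_mul_rpow hT hkn]
  refine (Finset.sum_le_sum key).trans ?_
  rw [← Finset.sum_mul]
  have h3 : ∑ k ∈ s, (n.choose k : ℝ) ≤ 2 ^ n := by
    refine (Finset.sum_le_sum_of_subset_of_nonneg hs (fun _ _ _ => by positivity)).trans ?_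
    have := Nat.sum_range_choose n
    exact_mod_cast this.le
  calc (∑ k ∈ s, (n.choose k : ℝ)) * (4 ^ n * (1 + t) ^ (a - b) * P (apow S b y))
      ≤ 2 ^ n * (4 ^ n * (1 + t) ^ (a - b) * P (apow S b y)) := by gcongr
    _ = _ := by ring

theorem split {P : Seminorm ℂ (S.D.E)} (hK : KInv S P) (hP : Ct P) (m : ℕ)
    {a b t : ℝ} (ht : 0 ≤ t) (hb : 0 ≤ b) (hba : b ≤ a) (ham : a ≤ m) (y : S.D.E) :
    ∃ u v : S.D.E, u + v = y ∧
      P u ≤ 4 ^ (2 * m) * 2 ^ (2 * m) * (1 + t) ^ (-b) * P (apow S b y) ∧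
      P (apow S a v) ≤ 4 ^ (2 * m) * 2 ^ (2 * m) * (1 + t) ^ (a - b) * P (apow S b y) := by
  have hex : ∀ k : ℕ, ∃ z, k ≤ 2 * m →
      Rel (fun i => S.D.ev i ^ k * ((t + S.D.ev i) ^ (2 * m))⁻¹) y z := by
    intro k
    by_cases hk : k ≤ 2 * m
    · obtain ⟨z, hz⟩ := exists_rel (f := fun i => S.D.ev i ^ k * ((t + S.D.ev i) ^ (2 * m))⁻¹)
        (pb_of_bdd 1 (fun i => by
          have h1 := S.D.one_le_ev i
          rw [abs_of_nonneg (by positivity), ← div_eq_mul_inv, div_le_one (by positivity)]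
          calc S.D.ev i ^ k ≤ S.D.ev i ^ (2 * m) := pow_le_pow_right₀ h1 hk
            _ ≤ (t + S.D.ev i) ^ (2 * m) := by gcongr; linarith)) y
      exact ⟨z, fun _ => hz⟩
    · exact ⟨0, fun h => absurd h hk⟩
  choose z hz using hex
  let co' : ℕ → ℂ := fun k => ((t ^ (2 * m - k) * ((2 * m).choose k : ℝ) : ℝ) : ℂ)
  let s := Finset.range (2 * m + 1)
  refine ⟨∑ k ∈ s.filter (fun k => m ≤ k), co' k • z k,
    ∑ k ∈ s.filter (fun k => ¬ m ≤ k), co' k • z k, ?_, ?_, ?_⟩
  · rw [Finset.sum_filter_add_sum_filter_not]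
    refine rapid_ext (fun i => ?_)
    rw [co_sum]
    have e1 : ∀ k ∈ s, co (co' k • z k) i
        = (((S.D.ev i ^ k * t ^ (2 * m - k) * ((2 * m).choose k : ℝ)) *
          ((t + S.D.ev i) ^ (2 * m))⁻¹ : ℝ) : ℂ) * co y i := by
      intro k hk
      have hk' : k ≤ 2 * m := by
        have := Finset.mem_range.1 hk
        omega
      rw [co_smul, hz k hk' i, ← mul_assoc]
      congr 1
      simp only [co']
      rw [← Complex.ofReal_mul]
      congr 1
      ring
    rw [Finset.sum_congr rfl e1, ← Finset.sum_mul, ← Complex.ofReal_sum, ← Finset.sum_mul,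
      ← add_pow]
    have h1 := S.D.ev_pos i
    have : (S.D.ev i + t) ^ (2 * m) * ((t + S.D.ev i) ^ (2 * m))⁻¹ = 1 := by
      rw [add_comm t]
      exact mul_inv_cancel₀ (by positivity)
    rw [this]
    simp
  · have h := part hK hP (2 * m) (a := 0) (b := b) ht (s.filter (fun k => m ≤ k))
      (Finset.filter_subset _ _) (fun k hk => by
        have h1 := (Finset.mem_filter.1 hk).2
        have h2 := Finset.mem_range.1 (Finset.mem_filter.1 hk).1
        have h1' : (m : ℝ) ≤ k := by exact_mod_cast h1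
        have h2' : (k : ℝ) ≤ (2 * m : ℕ) := by exact_mod_cast (Nat.lt_succ_iff.1 h2)
        constructor <;> linarith) y z (fun k hk => hz k (by
        have h2 := Finset.mem_range.1 (Finset.mem_filter.1 hk).1
        omega))
    rw [apow_zero, zero_sub] at h
    exact h
  · exact part hK hP (2 * m) (a := a) (b := b) ht (s.filter (fun k => ¬ m ≤ k))
      (Finset.filter_subset _ _) (fun k hk => by
        have h1 := (Finset.mem_filter.1 hk).2
        have h1' : (k : ℝ) ≤ m := by exact_mod_cast (not_le.1 h1).le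
        have h3 : (0 : ℝ) ≤ k := Nat.cast_nonneg k
        push_cast
        constructor <;> linarith) y z (fun k hk => hz k (by
        have h2 := Finset.mem_range.1 (Finset.mem_filter.1 hk).1
        omega))

variable {w : G → ℝ}

/-- the seminorm of a norm -/
noncomputable def NormW.sn (p : NormW S w) : Seminorm ℂ S.D.E :=
  Seminorm.of p.p p.add_le p.smul

theorem NormW.sn_apply (p : NormW S w) (x : S.D.E) : p.sn x = p.p x := rfl

theorem NormW.ct (p : NormW S w) : Ct p.sn := p.smooth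

theorem NormW.growth' (hw : IsWeight w) (p : NormW S w) : ∃ C : ℝ, 0 ≤ C ∧
    ∀ g x, p.sn (S.act g x) ≤ C * (w g * p.sn x) := by
  obtain ⟨C, h⟩ := p.growth
  refine ⟨|C|, abs_nonneg C, fun g x => (h g x).trans ?_⟩
  have := hw.pos g
  have h1 : 0 ≤ w g * p.p x := mul_nonneg this.le (apply_nonneg p.sn x)
  exact mul_le_mul_of_nonneg_right (le_abs_self C) h1

theorem main_ineq (hK : IsCompact (K : Set G)) (hw : IsWeight w) (p : NormW S w)
    {a b μ : ℝ} (hb : 0 ≤ b) (hba : b ≤ a) (hμ : a - b < μ) :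
    ∃ C : ℝ, 0 ≤ C ∧ ∀ x y : S.D.E, Rel (fun i => S.D.ev i ^ (-μ)) x y →
      avgS hw (p.sn.comp (apow S a)) y ≤ C * avgS hw (p.sn.comp (apow S b)) x := by
  obtain ⟨W, hW0, hW⟩ := weight_bdd hK hw
  obtain ⟨Cp, hCp0, hCp⟩ := p.growth' hw
  have hw1 : 0 ≤ w 1 := (hw.pos 1).le
  have hpK : ∀ k ∈ K, ∀ x, p.sn (S.act k x) ≤ (Cp * W) * p.sn x := by
    intro k hk x
    refine (hCp k x).trans ?_
    rw [mul_assoc]
    have := hW k hk
    have h1 : 0 ≤ p.sn x := apply_nonneg _ _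
    gcongr
  obtain ⟨P, hPK, hPc, hpP, hPp⟩ := khull p.ct (mul_nonneg hCp0 hW0) hpK
  set M := Cp * W with hM
  have hM0 : 0 ≤ M := mul_nonneg hCp0 hW0
  set q := avgS hw (p.sn.comp (apow S a)) with hq
  have hqle : ∀ x, q x ≤ w 1 * p.sn (apow S a x) := fun x =>
    avg_le_self hw (fun x => apply_nonneg (p.sn.comp (apow S a)) x) x
  have hqact : ∀ g x, q (S.act g x) ≤ w g * q x := fun g x =>
    avg_act hw (fun x => apply_nonneg (p.sn.comp (apow S a)) x) g x
  have hqc : Ct q := Ct.of_le (Ct.comp p.ct (pb_rpow a)) hw1 hqle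
  have hqK : ∀ k ∈ K, ∀ x, q (S.act k x) ≤ W * q x := by
    intro k hk x
    refine (hqact k x).trans ?_
    have h1 : 0 ≤ q x := apply_nonneg _ _
    have := hW k hk
    gcongr
  obtain ⟨Q, hQK, hQc, hqQ, hQq⟩ := khull hqc hW0 hqK
  obtain ⟨m, hm⟩ := exists_nat_gt (max μ a)
  have hmμ : μ < m := (le_max_left _ _).trans_lt hm
  have hma : a ≤ m := ((le_max_right _ _).trans_lt hm).le
  set c1 : ℝ := 4 ^ (2 * m) * 2 ^ (2 * m) with hc1
  have hc10 : 0 ≤ c1 := by positivity
  -- the splitting of a decomposition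
  have hsplit : ∀ (l : List (G × S.D.E)) (t : ℝ), 0 ≤ t →
      ∃ A B : S.D.E, A + B = tot l ∧
        p.sn A ≤ Cp * c1 * M * (1 + t) ^ (-b) * cost S w (p.sn.comp (apow S b)) l ∧
        q B ≤ w 1 * c1 * M * (1 + t) ^ (a - b) * cost S w (p.sn.comp (apow S b)) l := by
    intro l t ht
    induction l with
    | nil => exact ⟨0, 0, by simp, by simp, by simp⟩
    | cons z l ih =>
      obtain ⟨A, B, hAB, hA, hB⟩ := ih
      obtain ⟨u, v, huv, hu, hv⟩ := split hPK hPc m ht hb hba hma (S.act z.1 z.2)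
      have hwz := hw.pos z.1⁻¹
      have hT : 0 < 1 + t := by linarith
      refine ⟨S.act z.1⁻¹ u + A, S.act z.1⁻¹ v + B, ?_, ?_, ?_⟩
      · have e1 : S.act z.1⁻¹ (S.act z.1 z.2) = z.2 := by
          rw [← S.act_mul, inv_mul_cancel, S.act_one]
        rw [tot_cons, ← hAB, ← e1, ← huv, S.act_add]
        abel
      · refine (map_add_le_add _ _ _).trans ?_
        rw [cost_cons, mul_add]
        refine add_le_add ?_ hA
        refine (hCp _ _).trans ?_
        have h1 : p.sn u ≤ c1 * (1 + t) ^ (-b) * (M * p.sn (apow S b (S.act z.1 z.2))) :=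
          (hpP u).trans (hu.trans (mul_le_mul_of_nonneg_left (hPp _) (by positivity)))
        calc Cp * (w z.1⁻¹ * p.sn u) ≤ Cp * (w z.1⁻¹ *
              (c1 * (1 + t) ^ (-b) * (M * p.sn (apow S b (S.act z.1 z.2))))) := by gcongr
          _ = _ := by
            rw [Seminorm.comp_apply]
            ring
      · refine (map_add_le_add _ _ _).trans ?_
        rw [cost_cons, mul_add]
        refine add_le_add ?_ hB
        refine (hqact _ _).trans ?_
        have h1 : p.sn (apow S a v) ≤ c1 * (1 + t) ^ (a - b) *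
            (M * p.sn (apow S b (S.act z.1 z.2))) :=
          (hpP _).trans (hv.trans (mul_le_mul_of_nonneg_left (hPp _) (by positivity)))
        calc w z.1⁻¹ * q v ≤ w z.1⁻¹ * (w 1 * p.sn (apow S a v)) := by
              gcongr
              exact hqle v
          _ ≤ w z.1⁻¹ * (w 1 * (c1 * (1 + t) ^ (a - b) *
            (M * p.sn (apow S b (S.act z.1 z.2))))) := by gcongr
          _ = _ := by
            rw [Seminorm.comp_apply]
            ring
  set Cc : ℝ := W * (w 1 * (4 ^ m * (M * (Cp * c1 * M)))) + W * (w 1 * c1 * M) with hCc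
  have hCc0 : 0 ≤ Cc := by positivity
  have ha : 0 ≤ a := hb.trans hba
  have hμ0 : 0 < μ := by linarith
  have hcc1 : 0 < cc (m - μ) m := cc_pos _ _ (by linarith) (by linarith)
  have hcc2 : 0 < cc (m - μ) (m - (a - b)) := cc_pos _ _ (by linarith) (by linarith)
  have hneg : ∀ (l : List (G × S.D.E)) (x y : S.D.E), tot l = x →
      Rel (fun i => S.D.ev i ^ (-μ)) x y →
      q y ≤ (cc (m - μ) m)⁻¹ * cc (m - μ) (m - (a - b)) *
        (Cc * cost S w (p.sn.comp (apow S b)) l) := by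
    intro l x y hl hxy
    have hΛ : 0 ≤ cost S w (p.sn.comp (apow S b)) l :=
      cost_nonneg hw (fun x => apply_nonneg (p.sn.comp (apow S b)) x) l
    refine (hqQ y).trans (negp hQK hQc m (by linarith) hμ hmμ hxy (fun t ht z hz => ?_))
    have hT : 0 < 1 + t := by linarith
    obtain ⟨A, B, hAB, hA, hB⟩ := hsplit l t ht
    obtain ⟨zA, hzA⟩ := exists_rel (pb_down (S := S) ht m) A
    obtain ⟨zB, hzB⟩ := exists_rel (pb_down (S := S) ht m) B
    have e : z = zA + zB := rapid_ext (fun i => by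
      rw [co_add, hzA i, hzB i, hz i, ← hl, ← hAB, co_add, mul_add])
    have hB' : Q zB ≤ (1 + t) ^ (-(m : ℝ)) * (W * q B) := by
      have h1 := resN hQK hQc ht m hzB
      rw [add_comm t 1, inv_pow_eq hT] at h1
      refine h1.trans ?_
      gcongr
      exact hQq B
    have hA' : Q zA ≤ W * (w 1 * (4 ^ m * (1 + t) ^ (a - m) * (M * p.sn A))) := by
      have hr : Rel (fun i => S.D.ev i ^ a * ((t + S.D.ev i) ^ m)⁻¹) A (apow S a zA) :=
        hzA.comp (apow_rel a zA)
      have h1 := frac hPK hPc ht m ha hma hr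
      calc Q zA ≤ W * q zA := hQq zA
        _ ≤ W * (w 1 * p.sn (apow S a zA)) := by
          gcongr
          exact hqle zA
        _ ≤ W * (w 1 * (4 ^ m * (1 + t) ^ (a - m) * P A)) := by
          gcongr
          exact (hpP _).trans h1
        _ ≤ W * (w 1 * (4 ^ m * (1 + t) ^ (a - m) * (M * p.sn A))) := by
          gcongr
          exact hPp A
    have e3 : (1 + t) ^ (a - m) * (1 + t) ^ (-b) = (1 + t) ^ (-((m : ℝ) - (a - b))) := by
      rw [← Real.rpow_add hT]
      congr 1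
      ring
    have e4 : (1 + t) ^ (-(m : ℝ)) * (1 + t) ^ (a - b)
        = (1 + t) ^ (-((m : ℝ) - (a - b))) := by
      rw [← Real.rpow_add hT]
      congr 1
      ring
    rw [e]
    refine (map_add_le_add Q _ _).trans ?_
    have h5 : W * (w 1 * (4 ^ m * (1 + t) ^ (a - m) * (M * p.sn A)))
        ≤ W * (w 1 * (4 ^ m * (M * (Cp * c1 * M)))) *
          cost S w (p.sn.comp (apow S b)) l * (1 + t) ^ (-((m : ℝ) - (a - b))) := by
      calc W * (w 1 * (4 ^ m * (1 + t) ^ (a - m) * (M * p.sn A)))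
          ≤ W * (w 1 * (4 ^ m * (1 + t) ^ (a - m) * (M *
            (Cp * c1 * M * (1 + t) ^ (-b) * cost S w (p.sn.comp (apow S b)) l)))) := by
            gcongr
        _ = W * (w 1 * (4 ^ m * (M * (Cp * c1 * M)))) *
          cost S w (p.sn.comp (apow S b)) l * ((1 + t) ^ (a - m) * (1 + t) ^ (-b)) := by ring
        _ = _ := by rw [e3]
    have h6 : (1 + t) ^ (-(m : ℝ)) * (W * q B) ≤ W * (w 1 * c1 * M) *
          cost S w (p.sn.comp (apow S b)) l * (1 + t) ^ (-((m : ℝ) - (a - b))) := by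
      calc (1 + t) ^ (-(m : ℝ)) * (W * q B)
          ≤ (1 + t) ^ (-(m : ℝ)) * (W * (w 1 * c1 * M * (1 + t) ^ (a - b) *
            cost S w (p.sn.comp (apow S b)) l)) := by gcongr
        _ = W * (w 1 * c1 * M) * cost S w (p.sn.comp (apow S b)) l *
          ((1 + t) ^ (-(m : ℝ)) * (1 + t) ^ (a - b)) := by ring
        _ = _ := by rw [e4]
    have h7 : Cc * cost S w (p.sn.comp (apow S b)) l * (1 + t) ^ (-((m : ℝ) - (a - b)))
        = W * (w 1 * (4 ^ m * (M * (Cp * c1 * M)))) *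
          cost S w (p.sn.comp (apow S b)) l * (1 + t) ^ (-((m : ℝ) - (a - b)))
          + W * (w 1 * c1 * M) *
          cost S w (p.sn.comp (apow S b)) l * (1 + t) ^ (-((m : ℝ) - (a - b))) := by
      rw [hCc]
      ring
    rw [h7]
    linarith
  set C2 := (cc (m - μ) m)⁻¹ * cc (m - μ) (m - (a - b)) with hC2
  have hC20 : 0 ≤ C2 := by positivity
  have hpos : 0 < C2 * Cc + 1 := by positivity
  refine ⟨C2 * Cc + 1, hpos.le, fun x y hxy => ?_⟩
  rw [← div_le_iff₀' hpos]
  refine le_avg (fun l hl => ?_)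
  rw [div_le_iff₀' hpos]
  have h1 := hneg l x y hl hxy
  have hΛ : 0 ≤ cost S w (p.sn.comp (apow S b)) l :=
    cost_nonneg hw (fun x => apply_nonneg (p.sn.comp (apow S b)) x) l
  refine h1.trans ?_
  nlinarith

end Pool.Agent.N535.SB
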